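import Pool.Agent.Work.MP_dfab40_lc.R.F.Str

/-!
# Module `Absol` (size S): arithmetical formulas are absolute; prefixes of set quantifiers

PROOF.  `Sat_arith`: first for terms (`val` does not depend on `S`), then induction on `Arith p` (for
all `v`); `Fm.fS` is the bound of the free set variables (`GFree`).
`Prf_allS`: `Prf T [] (allS p) ↔ Prf T [] p`: by `prf_iff` (`Pool.Agent.RT.prf_iff` in
`MP_dc6514_lc/R/GModel`), `Valid A (allS p) ↔ Valid A p` (every `V` with values in `A.S` is
`cons (V 0) (fun i => V (i + 1))`).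
-/

namespace Pool.Agent.Work.MP_dfab40_lc.R

open Pool.Agent.RT

private theorem val_abs {M : Type} [PAm M] {S S' : Set (Set M)} (h : S.Nonempty) (h' : S'.Nonempty)
    (t : Tm) (v : ℕ → M) :
    (t.val (strOf M S h) v : M) = (t.val (strOf M S' h') v : M) := by
  induction t with
  | var i => rfl
  | zero => rfl
  | one => rfl
  | add s t hs ht =>
    exact congrArg₂ (fun x y : M => x + y) hs ht
  | mul s t hs ht =>
    exact congrArg₂ (fun x y : M => x * y) hs ht

theorem Sat_arith {M : Type} [PAm M] {S S' : Set (Set M)} (h : S.Nonempty) (h' : S'.Nonempty)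
    {p : Fm} (hp : Arith p) (V V' : ℕ → Set M) (hV : ∀ i, i < p.fS → V i = V' i) (v : ℕ → M) :
    Sat (strOf M S h) v V p ↔ Sat (strOf M S' h') v V' p := by
  induction hp generalizing v with
  | eq s t =>
    show ((s.val (strOf M S h) v : M) = (t.val (strOf M S h) v : M)) ↔
      ((s.val (strOf M S' h') v : M) = (t.val (strOf M S' h') v : M))
    rw [val_abs h h' s v, val_abs h h' t v]
    exact Iff.rfl
  | lt s t =>
    show @LT.lt M _ (s.val (strOf M S h) v) (t.val (strOf M S h) v) ↔
      @LT.lt M _ (s.val (strOf M S' h') v) (t.val (strOf M S' h') v)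
    rw [val_abs h h' s v, val_abs h h' t v]
  | mem t X =>
    show ((t.val (strOf M S h) v : M) ∈ V X) ↔ ((t.val (strOf M S' h') v : M) ∈ V' X)
    rw [val_abs h h' t v, hV X (Nat.lt_succ_self X)]
    exact Iff.rfl
  | bot => exact Iff.rfl
  | imp _ _ ih1 ih2 =>
    exact imp_congr (ih1 (fun i hi => hV i (lt_of_lt_of_le hi (le_max_left _ _))) v)
      (ih2 (fun i hi => hV i (lt_of_lt_of_le hi (le_max_right _ _))) v)
  | allN _ ih =>
    exact forall_congr' fun a => ih hV (cons a v)

theorem Valid_allS (A : L2Str) (p : Fm) : Valid A (.allS p) ↔ Valid A p := by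
  constructor
  · intro h v V hV
    have := h v (fun i => V (i + 1)) (fun i => hV (i + 1)) (V 0) (hV 0)
    have e : cons (V 0) (fun i => V (i + 1)) = V := by
      funext i
      cases i <;> rfl
    rwa [e] at this
  · intro h v V hV X hX
    refine h v (cons X V) ?_
    intro i
    cases i with
    | zero => exact hX
    | succ i => exact hV i

end Pool.Agent.Work.MP_dfab40_lc.R
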