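import Pool.Agent.Work.MP_dfab40_lc.R.F.Str

/-!
# Module `BasA` (size S-M): induction from `RCA_0`

PROOF.  `h` contains `indAx (exN p)` (for `Sigma01 (exN p)`); use it under the assignment
`(v, fun _ => X)`, `X ∈ A.S`, and `sat_indAx`, `sat_exN`.  For `ind_bdd` apply `ind_sig` to the
formula `p` with a dummy variable: `p.shN` is bounded (`Bdd_sub` below) and
`Sat A (cons w (cons x v)) V p.shN ↔ Sat A (cons x v) V p` by `Sat_shN`.
`Bdd_sub`: induction on `Bdd p` (for all `σ`); in the cases `ball`, `bex` the substituted bound is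
`(t.sub fun i => va (i + 1)).sub (upT σ) = (t.sub σ).sub fun i => va (i + 1)` (`Tm.sub_sub`).
-/

namespace Pool.Agent.Work.MP_dfab40_lc.R

open Pool.Agent.RT

theorem Bdd_sub {p : Fm} (hp : Bdd p) : ∀ (σ : ℕ → Tm) (τ : ℕ → ℕ), Bdd (p.sub σ τ) := by
  have key : ∀ (t : Tm) (σ : ℕ → Tm), (t.sub fun i => va (i + 1)).sub (upT σ) =
      (t.sub σ).sub fun i => va (i + 1) := by
    intro t σ
    rw [Tm.sub_sub, Tm.sub_sub]
    rfl
  induction hp with
  | eq s t => intro σ τ; exact Bdd.eq _ _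
  | lt s t => intro σ τ; exact Bdd.lt _ _
  | mem t X => intro σ τ; exact Bdd.mem _ _
  | bot => intro σ τ; exact Bdd.bot
  | imp _ _ h1 h2 => intro σ τ; exact Bdd.imp (h1 σ τ) (h2 σ τ)
  | @ball t p _ ih =>
    intro σ τ
    have h1 : Fm.sub σ τ (.allN (.imp (.lt (va 0) (t.sub fun i => va (i + 1))) p)) =
        .allN (.imp (.lt (va 0) ((t.sub fun i => va (i + 1)).sub (upT σ))) (p.sub (upT σ) τ)) := rfl
    rw [h1, key]
    exact Bdd.ball (t.sub σ) (ih (upT σ) τ)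
  | @bex t p _ ih =>
    intro σ τ
    have h1 : Fm.sub σ τ (Fm.exN (Fm.and (.lt (va 0) (t.sub fun i => va (i + 1))) p)) =
        Fm.exN (Fm.and (.lt (va 0) ((t.sub fun i => va (i + 1)).sub (upT σ)))
          (p.sub (upT σ) τ)) := rfl
    rw [h1, key]
    exact Bdd.bex (t.sub σ) (ih (upT σ) τ)

theorem ind_sig {A : L2Str} (h : Models A RCA0) {p : Fm} (hp : Bdd p) (v : ℕ → A.M)
    (V : ℕ → Set A.M) (hV : ∀ i, V i ∈ A.S)
    (h0 : ∃ w, Sat A (cons w (cons A.zero v)) V p)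
    (h1 : ∀ x, (∃ w, Sat A (cons w (cons x v)) V p) →
      ∃ w, Sat A (cons w (cons (A.add x A.one) v)) V p) (x : A.M) :
    ∃ w, Sat A (cons w (cons x v)) V p := by
  have hax : Valid A (indAx (Fm.exN p)) := h _ (Or.inl (Or.inr ⟨_, ⟨p, hp, rfl⟩, rfl⟩))
  have h2 := (sat_indAx A v V (Fm.exN p)).1 (hax v V hV)
  simp only [sat_exN] at h2
  exact h2 h0 h1 x

theorem ind_bdd {A : L2Str} (h : Models A RCA0) {p : Fm} (hp : Bdd p) (v : ℕ → A.M)
    (V : ℕ → Set A.M) (hV : ∀ i, V i ∈ A.S) (h0 : Sat A (cons A.zero v) V p)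
    (h1 : ∀ x, Sat A (cons x v) V p → Sat A (cons (A.add x A.one) v) V p) (x : A.M) :
    Sat A (cons x v) V p := by
  have hb : Bdd p.shN := Bdd_sub hp _ _
  obtain ⟨w, hw⟩ := ind_sig h hb v V hV ⟨A.zero, (Sat_shN A p _ V _).2 h0⟩
    (fun x ⟨w, hw⟩ => ⟨A.zero, (Sat_shN A p _ V _).2 (h1 x ((Sat_shN A p _ V _).1 hw))⟩) x
  exact (Sat_shN A p _ V _).1 hw

end Pool.Agent.Work.MP_dfab40_lc.R
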