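import Pool.Agent.Work.MP_dfab40_lc.R.F.BasA

/-!
# Module `BasB` (size M-L): a model of the basic axioms with `Σ^0_1` induction is a model of `PA^-`

The raw operations of `A` are written `A.add x y` etc.  First get from `h` the eight basic axioms as
statements about elements.  Every induction below is `ind_bdd` (`ind_sig` where an existential
quantifier occurs) with an explicit formula, other variables as parameters.
-/

namespace Pool.Agent.Work.MP_dfab40_lc.R

open Pool.Agent.RT

section Raw

variable {A : L2Str} (h : Models A RCA0)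

include h

private theorem ax {p : Fm} (hp : Basic p) (m n : A.M) :
    Sat A (cons m (cons n fun _ => m)) (fun _ => A.ne.some) p :=
  h p (Or.inl (Or.inl hp)) _ _ fun _ => A.ne.some_mem

private theorem a1 (n : A.M) : A.add n A.one ≠ A.zero := ax h Basic.succ_ne_zero n n

private theorem a2 {m n : A.M} (e : A.add m A.one = A.add n A.one) : m = n :=
  ax h Basic.succ_inj m n e

private theorem a3 (m : A.M) : A.add m A.zero = m := ax h Basic.add_zero m m

private theorem a4 (m n : A.M) : A.add m (A.add n A.one) = A.add (A.add m n) A.one :=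
  ax h Basic.add_succ m n

private theorem a5 (m : A.M) : A.mul m A.zero = A.zero := ax h Basic.mul_zero m m

private theorem a6 (m n : A.M) : A.mul m (A.add n A.one) = A.add (A.mul m n) m :=
  ax h Basic.mul_succ m n

private theorem a7 (m : A.M) : ¬ A.lt m A.zero := ax h Basic.not_lt_zero m m

private theorem a8 (m n : A.M) : A.lt m (A.add n A.one) ↔ A.lt m n ∨ m = n := by
  have := ax h Basic.lt_succ m n
  rw [sat_iff, sat_or] at this
  exact this

/-- Induction for equations. -/
private theorem indE (s t : Tm) (a b : A.M)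
    (h0 : s.val A (cons A.zero (cons a fun _ => b)) = t.val A (cons A.zero (cons a fun _ => b)))
    (h1 : ∀ x, s.val A (cons x (cons a fun _ => b)) = t.val A (cons x (cons a fun _ => b)) →
      s.val A (cons (A.add x A.one) (cons a fun _ => b)) =
        t.val A (cons (A.add x A.one) (cons a fun _ => b))) (x : A.M) :
    s.val A (cons x (cons a fun _ => b)) = t.val A (cons x (cons a fun _ => b)) :=
  ind_bdd h (Bdd.eq s t) (cons a fun _ => b) (fun _ => A.ne.some) (fun _ => A.ne.some_mem) h0 h1 x

private theorem zero_add' (x : A.M) : A.add A.zero x = x := by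
  refine indE h (.add .zero (va 0)) (va 0) x x ?_ ?_ x
  · exact a3 h _
  · intro y hy
    change A.add A.zero y = y at hy
    change A.add A.zero (A.add y A.one) = A.add y A.one
    rw [a4 h, hy]

private theorem add_assoc' (a b c : A.M) : A.add (A.add a b) c = A.add a (A.add b c) := by
  refine indE h (.add (.add (va 1) (va 2)) (va 0)) (.add (va 1) (.add (va 2) (va 0))) a b ?_ ?_ c
  · change A.add (A.add a b) A.zero = A.add a (A.add b A.zero)
    rw [a3 h, a3 h]
  · intro c hc
    change A.add (A.add a b) c = A.add a (A.add b c) at hc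
    change A.add (A.add a b) (A.add c A.one) = A.add a (A.add b (A.add c A.one))
    rw [a4 h, hc, a4 h, a4 h]

private theorem succ_comm (x : A.M) : A.add x A.one = A.add A.one x := by
  refine indE h (.add (va 0) .one) (.add .one (va 0)) x x ?_ ?_ x
  · change A.add A.zero A.one = A.add A.one A.zero
    rw [a3 h, zero_add' h]
  · intro y hy
    change A.add y A.one = A.add A.one y at hy
    change A.add (A.add y A.one) A.one = A.add A.one (A.add y A.one)
    rw [a4 h, hy]

private theorem add_comm' (a b : A.M) : A.add a b = A.add b a := by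
  refine indE h (.add (va 1) (va 0)) (.add (va 0) (va 1)) a a ?_ ?_ b
  · change A.add a A.zero = A.add A.zero a
    rw [a3 h, zero_add' h]
  · intro b hb
    change A.add a b = A.add b a at hb
    change A.add a (A.add b A.one) = A.add (A.add b A.one) a
    rw [a4 h, hb, ← a4 h, succ_comm h a, add_assoc' h]

private theorem left_distrib' (a b c : A.M) :
    A.mul a (A.add b c) = A.add (A.mul a b) (A.mul a c) := by
  refine indE h (.mul (va 1) (.add (va 2) (va 0))) (.add (.mul (va 1) (va 2)) (.mul (va 1) (va 0)))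
    a b ?_ ?_ c
  · change A.mul a (A.add b A.zero) = A.add (A.mul a b) (A.mul a A.zero)
    rw [a3 h, a5 h, a3 h]
  · intro c hc
    change A.mul a (A.add b c) = A.add (A.mul a b) (A.mul a c) at hc
    change A.mul a (A.add b (A.add c A.one)) = A.add (A.mul a b) (A.mul a (A.add c A.one))
    rw [a4 h, a6 h, hc, a6 h, add_assoc' h]

private theorem mul_assoc' (a b c : A.M) : A.mul (A.mul a b) c = A.mul a (A.mul b c) := by
  refine indE h (.mul (.mul (va 1) (va 2)) (va 0)) (.mul (va 1) (.mul (va 2) (va 0))) a b ?_ ?_ c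
  · change A.mul (A.mul a b) A.zero = A.mul a (A.mul b A.zero)
    rw [a5 h, a5 h, a5 h]
  · intro c hc
    change A.mul (A.mul a b) c = A.mul a (A.mul b c) at hc
    change A.mul (A.mul a b) (A.add c A.one) = A.mul a (A.mul b (A.add c A.one))
    rw [a6 h, hc, a6 h, left_distrib' h]

private theorem zero_mul' (x : A.M) : A.mul A.zero x = A.zero := by
  refine indE h (.mul .zero (va 0)) .zero x x ?_ ?_ x
  · exact a5 h _
  · intro y hy
    change A.mul A.zero y = A.zero at hy
    change A.mul A.zero (A.add y A.one) = A.zero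
    rw [a6 h, hy, a3 h]

private theorem mul_one' (x : A.M) : A.mul x A.one = x := by
  have := a6 h x A.zero
  rw [zero_add' h, a5 h, zero_add' h] at this
  exact this

private theorem one_mul' (x : A.M) : A.mul A.one x = x := by
  refine indE h (.mul .one (va 0)) (va 0) x x ?_ ?_ x
  · exact a5 h _
  · intro y hy
    change A.mul A.one y = y at hy
    change A.mul A.one (A.add y A.one) = A.add y A.one
    rw [a6 h, hy]

private theorem right_distrib' (a b c : A.M) :
    A.mul (A.add a b) c = A.add (A.mul a c) (A.mul b c) := by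
  refine indE h (.mul (.add (va 1) (va 2)) (va 0)) (.add (.mul (va 1) (va 0)) (.mul (va 2) (va 0)))
    a b ?_ ?_ c
  · change A.mul (A.add a b) A.zero = A.add (A.mul a A.zero) (A.mul b A.zero)
    rw [a5 h, a5 h, a5 h, a3 h]
  · intro c hc
    change A.mul (A.add a b) c = A.add (A.mul a c) (A.mul b c) at hc
    change A.mul (A.add a b) (A.add c A.one) =
      A.add (A.mul a (A.add c A.one)) (A.mul b (A.add c A.one))
    rw [a6 h, a6 h, a6 h, hc]
    rw [add_assoc' h, add_assoc' h, ← add_assoc' h (A.mul b c) a b, add_comm' h (A.mul b c) a,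
      add_assoc' h]

private theorem mul_comm' (a b : A.M) : A.mul a b = A.mul b a := by
  refine indE h (.mul (va 1) (va 0)) (.mul (va 0) (va 1)) a a ?_ ?_ b
  · change A.mul a A.zero = A.mul A.zero a
    rw [a5 h, zero_mul' h]
  · intro b hb
    change A.mul a b = A.mul b a at hb
    change A.mul a (A.add b A.one) = A.mul (A.add b A.one) a
    rw [a6 h, hb, right_distrib' h, one_mul' h]

private theorem cancel (a b c : A.M) : A.add a c = A.add b c → a = b := by
  have := ind_bdd h (p := .imp (.eq (.add (va 1) (va 0)) (.add (va 2) (va 0))) (.eq (va 1) (va 2)))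
    (Bdd.imp (Bdd.eq _ _) (Bdd.eq _ _)) (cons a fun _ => b) (fun _ => A.ne.some)
    (fun _ => A.ne.some_mem) ?_ ?_ c
  · exact this
  · change A.add a A.zero = A.add b A.zero → a = b
    rw [a3 h, a3 h]; exact id
  · intro c hc
    change A.add a c = A.add b c → a = b at hc
    change A.add a (A.add c A.one) = A.add b (A.add c A.one) → a = b
    rw [a4 h, a4 h]
    intro e
    exact hc (a2 h e)

private theorem cancel_zero {x w : A.M} (e : A.add x w = x) : w = A.zero := by
  refine cancel h w A.zero x ?_
  rw [add_comm' h, e, zero_add' h]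

private theorem zero_or (x : A.M) : x = A.zero ∨ ∃ w, x = A.add w A.one := by
  have := ind_sig h (p := Fm.or (.eq (va 1) .zero) (.eq (va 1) (.add (va 0) .one)))
    (Bdd.imp (Bdd.imp (Bdd.eq _ _) Bdd.bot) (Bdd.eq _ _)) (fun _ => x) (fun _ => A.ne.some)
    (fun _ => A.ne.some_mem) ?_ ?_ x
  · obtain ⟨w, hw⟩ := this
    rw [sat_or] at hw
    rcases hw with hw | hw
    · exact Or.inl hw
    · exact Or.inr ⟨w, hw⟩
  · refine ⟨x, ?_⟩
    rw [sat_or]
    exact Or.inl rfl
  · intro y _
    refine ⟨y, ?_⟩
    rw [sat_or]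
    exact Or.inr rfl

private theorem eq_zero_of_add {x y : A.M} (e : A.add x y = A.zero) : x = A.zero ∧ y = A.zero := by
  have hy : y = A.zero := by
    rcases zero_or h y with hy | ⟨w, rfl⟩
    · exact hy
    · rw [a4 h] at e; exact absurd e (a1 h _)
  subst hy
  rw [a3 h] at e
  exact ⟨e, rfl⟩

private theorem lt_iff (x y : A.M) : A.lt x y ↔ ∃ z, A.add (A.add x z) A.one = y := by
  constructor
  · have := ind_sig h (p := .imp (.lt (va 2) (va 1)) (.eq (.add (.add (va 2) (va 0)) .one) (va 1)))
      (Bdd.imp (Bdd.lt _ _) (Bdd.eq _ _)) (fun _ => x) (fun _ => A.ne.some)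
      (fun _ => A.ne.some_mem) ?_ ?_ y
    · obtain ⟨z, hz⟩ := this
      exact fun hxy => ⟨z, hz hxy⟩
    · exact ⟨x, fun hx => absurd hx (a7 h x)⟩
    · rintro y ⟨z, hz⟩
      change A.lt x y → A.add (A.add x z) A.one = y at hz
      change ∃ w, A.lt x (A.add y A.one) → A.add (A.add x w) A.one = A.add y A.one
      by_cases hxy : A.lt x y
      · refine ⟨A.add z A.one, fun _ => ?_⟩
        rw [a4 h, hz hxy]
      · refine ⟨A.zero, fun hx => ?_⟩
        rw [a8 h] at hx
        rcases hx with hx | hx
        · exact absurd hx hxy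
        · rw [a3 h, hx]
  · rintro ⟨z, rfl⟩
    have := ind_bdd h (p := .lt (va 1) (.add (.add (va 1) (va 0)) .one)) (Bdd.lt _ _) (fun _ => x)
      (fun _ => A.ne.some) (fun _ => A.ne.some_mem) ?_ ?_ z
    · exact this
    · change A.lt x (A.add (A.add x A.zero) A.one)
      rw [a3 h, a8 h]
      exact Or.inr rfl
    · intro z hz
      change A.lt x (A.add (A.add x z) A.one) at hz
      change A.lt x (A.add (A.add x (A.add z A.one)) A.one)
      rw [a4 h, a8 h]
      exact Or.inl hz

private theorem total (x y : A.M) : (∃ z, y = A.add x z) ∨ ∃ z, x = A.add y z := by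
  have := ind_sig h (p := Fm.or (.eq (va 1) (.add (va 2) (va 0))) (.eq (va 2) (.add (va 1) (va 0))))
    (Bdd.imp (Bdd.imp (Bdd.eq _ _) Bdd.bot) (Bdd.eq _ _)) (fun _ => x) (fun _ => A.ne.some)
    (fun _ => A.ne.some_mem) ?_ ?_ y
  · obtain ⟨z, hz⟩ := this
    rw [sat_or] at hz
    rcases hz with hz | hz
    · exact Or.inl ⟨z, hz⟩
    · exact Or.inr ⟨z, hz⟩
  · refine ⟨x, ?_⟩
    rw [sat_or]
    exact Or.inr (zero_add' h x).symm
  · rintro y ⟨z, hz⟩
    rw [sat_or] at hz
    simp only [sat_or]
    change y = A.add x z ∨ x = A.add y z at hz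
    change ∃ w, A.add y A.one = A.add x w ∨ x = A.add (A.add y A.one) w
    rcases hz with hz | hz
    · exact ⟨A.add z A.one, Or.inl (by rw [a4 h, ← hz])⟩
    · rcases zero_or h z with rfl | ⟨w, rfl⟩
      · rw [a3 h] at hz
        exact ⟨A.one, Or.inl (by rw [hz])⟩
      · refine ⟨w, Or.inr ?_⟩
        rw [hz, add_assoc' h, ← succ_comm h]

end Raw

/-- The semiring. -/
@[reducible] private def csr (A : L2Str) (h : Models A RCA0) : CommSemiring A.M where
  add := A.add
  add_assoc := add_assoc' h
  zero := A.zero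
  zero_add := zero_add' h
  add_zero := a3 h
  nsmul := @nsmulRec A.M ⟨A.zero⟩ ⟨A.add⟩
  add_comm := add_comm' h
  mul := A.mul
  left_distrib := left_distrib' h
  right_distrib := right_distrib' h
  zero_mul := zero_mul' h
  mul_zero := a5 h
  mul_assoc := mul_assoc' h
  one := A.one
  one_mul := one_mul' h
  mul_one := mul_one' h
  mul_comm := mul_comm' h

/-- The order. -/
@[reducible] private noncomputable def lor (A : L2Str) (h : Models A RCA0) : LinearOrder A.M where
  le := fun x y => ∃ z, y = A.add x z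
  lt := A.lt
  le_refl := fun x => ⟨A.zero, (a3 h x).symm⟩
  le_trans := by
    rintro x y z ⟨a, rfl⟩ ⟨b, rfl⟩
    exact ⟨A.add a b, add_assoc' h _ _ _⟩
  lt_iff_le_not_ge := by
    intro x y
    rw [lt_iff h]
    constructor
    · rintro ⟨z, rfl⟩
      refine ⟨⟨A.add z A.one, (a4 h x z).symm⟩, ?_⟩
      rintro ⟨w, hw⟩
      rw [← a4 h, add_assoc' h] at hw
      have h1 := (eq_zero_of_add h (cancel_zero h hw.symm)).1
      exact a1 h _ h1
    · rintro ⟨⟨z, rfl⟩, hz⟩
      rcases zero_or h z with rfl | ⟨w, rfl⟩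
      · exact absurd ⟨A.zero, by rw [a3 h, a3 h]⟩ hz
      · exact ⟨w, (a4 h x w).symm⟩
  le_antisymm := by
    rintro x y ⟨a, rfl⟩ ⟨b, hb⟩
    rw [add_assoc' h] at hb
    have := cancel_zero h hb.symm
    rw [(eq_zero_of_add h this).1, a3 h]
  le_total := total h
  toDecidableLE := Classical.decRel _

/-- The instance. -/
@[reducible] private noncomputable def instPAm (A : L2Str) (h : Models A RCA0) : PAm A.M :=
  letI i1 : CommSemiring A.M := csr A h
  letI i2 : LinearOrder A.M := lor A h
  have hle : ∀ x y : A.M, x ≤ y ↔ ∃ z, y = x + z := fun x y => Iff.rfl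
  have hlt : ∀ x y : A.M, x < y ↔ ∃ z, x + z + 1 = y := fun x y => lt_iff h x y
  have hc : ∀ a b c : A.M, a + c = b + c → a = b := fun a b c => cancel h a b c
  have hadd : ∀ a b : A.M, a ≤ b → ∀ c, a + c ≤ b + c := by
    intro a b hab c
    obtain ⟨z, rfl⟩ := (hle a b).1 hab
    exact (hle _ _).2 ⟨z, by ring⟩
  have hmul : ∀ a b c : A.M, a < b → 0 < c → a * c < b * c := by
    intro a b c hab h0
    obtain ⟨z, rfl⟩ := (hlt a b).1 hab
    obtain ⟨w, rfl⟩ := (hlt 0 c).1 h0
    exact (hlt _ _).2 ⟨(z * (0 + w + 1)) + (0 + w), by ring⟩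
  have hle0 : ∀ a b : A.M, a ≤ a + b := fun a b => (hle _ _).2 ⟨b, rfl⟩
  { i1, i2 with
    add_le_add_left := fun a b hab c => hadd a b hab c
    le_of_add_le_add_left := fun a b c hab => by
      obtain ⟨z, hz⟩ := (hle _ _).1 hab
      refine (hle _ _).2 ⟨z, hc _ _ a ?_⟩
      rw [add_comm c a, hz]; ring
    zero_le_one := (hle _ _).2 ⟨1, (zero_add _).symm⟩
    exists_pair_ne := ⟨0, 1, fun e => a1 h A.zero (by
      have : A.zero = A.one := e
      rw [← this, a3 h])⟩
    mul_lt_mul_of_pos_left := fun a ha b c hbc => by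
      rw [mul_comm a b, mul_comm a c]; exact hmul b c a hbc ha
    mul_lt_mul_of_pos_right := fun c hc' a b hab => hmul a b c hab hc'
    exists_add_of_le := fun {a b} hab => (hle a b).1 hab
    le_self_add := fun a b => hle0 a b
    le_add_self := fun a b => by rw [add_comm]; exact hle0 a b
    one_le_of_pos := fun x hx => by
      obtain ⟨z, rfl⟩ := (hlt 0 x).1 hx
      exact (hle _ _).2 ⟨z, by ring⟩ }

theorem exists_PAm (A : L2Str) (h : Models A RCA0) :
    ∃ i : PAm A.M, A = @strOf A.M i A.S A.ne := by
  exact ⟨instPAm A h, rfl⟩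

end Pool.Agent.Work.MP_dfab40_lc.R
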