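import Pool.Agent.Work.MP_dfab40_lc.R.F.Final

/-!
# Sanity check: the theories are consistent (the standard structure)
-/

namespace Pool.Agent.RT

open Pool.Agent.Work.MP_dfab40_lc.R

instance instPAmNat : PAm ℕ where
  one_le_of_pos := fun _ h => h

instance instISNat (S : Set (Set ℕ)) : IS S where
  ind := fun _ _ h0 h1 x => Nat.rec h0 (fun n ih => h1 n ih) x

instance instISigNat : ISig ℕ := ⟨inferInstance⟩

theorem bs2_nat (S : Set (Set ℕ)) : BS2 S := by
  intro R _ b hb
  choose! f hf using hb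
  refine ⟨(Finset.range b).sup f + 1, fun x hx => ⟨f x, ?_, hf x hx⟩⟩
  exact Nat.lt_succ_of_le (Finset.le_sup (f := f) (Finset.mem_range.2 hx))

/-- The standard structure is a model of `RCA_0 + BΣ^0_2`. -/
theorem models_nat : Models (strOf ℕ Set.univ ⟨∅, trivial⟩) (RCA0 ∪ BSigma2) := by
  rintro q (hq | hq)
  · exact models_RCA0 (S := Set.univ) _ (fun _ _ => Set.mem_univ _) q hq
  · exact models_BSigma2 (bs2_nat _) _ q hq

theorem consistent_BS : ¬ Prf (RCA0 ∪ BSigma2) [] .bot := by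
  intro h
  exact prf_iff.1 h _ models_nat (fun _ => (0 : ℕ)) (fun _ => (∅ : Set ℕ)) fun _ => trivial

theorem consistent_RT : ¬ Prf (RCA0 ∪ {RT22}) [] .bot := fun h =>
  consistent_BS ((main_iff (.arith .bot)).1.1 h)

theorem consistent_SRT : ¬ Prf (RCA0 ∪ {SRT22}) [] .bot := fun h =>
  consistent_BS ((main_iff (.arith .bot)).2.1 h)

/-- The `Π^1_1` theorems of `RCA_0 + RT^2_2` are true in the standard structure. -/
theorem sound_nat {p : Fm} (hp : Pi11 p) (h : Prf (RCA0 ∪ {RT22}) [] p) :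
    Valid (strOf ℕ Set.univ ⟨∅, trivial⟩) p :=
  prf_iff.1 ((main_iff hp).1.1 h) _ models_nat

end Pool.Agent.RT
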