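import Pool.Agent.Work.MP_dfab40_lc.R.F.Str

/-!
# Module `D0Fm` (size S-M): `D0` relations are defined by bounded formulas

The coordinates and the constants are listed in a sequence `x`, the sets in a sequence `V` (so this
is used for countable `M` and `S`).
PROOF.  `PolyF_term`: induction.  `D0_formula`: induction on `D0` (generalising `x`): for `bex` use the
sequence `cons snd (fun i => x i ∘ fst)` in the context `A × M` (it contains the coordinates
`extC C` and the constants) and `Bdd.bex`, `val_shift`.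
`exists_seq`: interleave: `x 0 = f0`, `x 1 = f1`, `x (i + 2) = const (c i)`, `c` an enumeration of `M`
(`exists_surjective_nat`, `M` is nonempty because of `0`), `V` an enumeration of `S`
(`Set.Countable.exists_eq_range`).
-/

namespace Pool.Agent.Work.MP_dfab40_lc.R

open Pool.Agent.RT

variable {M : Type} [PAm M] {S S' : Set (Set M)} (h : S'.Nonempty)

theorem PolyF_term {A : Type} {C : Set (A → M)} {f : A → M} (hf : PolyF C f) {x : ℕ → A → M}
    (hC : ∀ g ∈ C, ∃ i, x i = g) (hx : ∀ m : M, ∃ i, x i = fun _ => m) :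
    ∃ t : Tm, ∀ a, f a = t.val (strOf M S' h) (fun i => x i a) := by
  induction hf with
  | coord hf =>
    obtain ⟨i, hi⟩ := hC _ hf
    exact ⟨.var i, fun a => by rw [val_va, hi]⟩
  | const c =>
    obtain ⟨i, hi⟩ := hx c
    exact ⟨.var i, fun a => by rw [val_va, hi]⟩
  | add _ _ h1 h2 =>
    obtain ⟨s, hs⟩ := h1
    obtain ⟨t, ht⟩ := h2
    exact ⟨.add s t, fun a => congrArg₂ (fun u v : M => u + v) (hs a) (ht a)⟩
  | mul _ _ h1 h2 =>
    obtain ⟨s, hs⟩ := h1
    obtain ⟨t, ht⟩ := h2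
    exact ⟨.mul s t, fun a => congrArg₂ (fun u v : M => u * v) (hs a) (ht a)⟩

theorem D0_formula {A : Type} {C : Set (A → M)} {R : A → Prop} (hR : D0 S A C R) {V : ℕ → Set M}
    (hV : ∀ X ∈ S, ∃ i, V i = X) : ∀ {x : ℕ → A → M}, (∀ g ∈ C, ∃ i, x i = g) →
      (∀ m : M, ∃ i, x i = fun _ => m) →
      ∃ p : Fm, Bdd p ∧ ∀ a, R a ↔ Sat (strOf M S' h) (fun i => x i a) V p := by
  induction hR with
  | lt hf hg =>
    intro x hC hx
    obtain ⟨s, hs⟩ := PolyF_term h hf hC hx
    obtain ⟨t, ht⟩ := PolyF_term h hg hC hx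
    exact ⟨.lt s t, Bdd.lt s t, fun a =>
      Iff.of_eq (congrArg₂ (fun u v : M => u < v) (hs a) (ht a))⟩
  | mem hX hf =>
    intro x hC hx
    obtain ⟨t, ht⟩ := PolyF_term h hf hC hx
    obtain ⟨i, hi⟩ := hV _ hX
    subst hi
    exact ⟨.mem t i, Bdd.mem t i, fun a => Iff.of_eq (congrArg (fun u : M => u ∈ V i) (ht a))⟩
  | not _ ih =>
    intro x hC hx
    obtain ⟨p, hp, hp'⟩ := ih hC hx
    exact ⟨.imp p .bot, Bdd.imp hp Bdd.bot, fun a => not_congr (hp' a)⟩
  | and _ _ ih1 ih2 =>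
    intro x hC hx
    obtain ⟨p, hp, hp'⟩ := ih1 hC hx
    obtain ⟨q, hq, hq'⟩ := ih2 hC hx
    refine ⟨Fm.and p q, Bdd.imp (Bdd.imp hp (Bdd.imp hq Bdd.bot)) Bdd.bot, fun a => ?_⟩
    rw [sat_and]
    exact and_congr (hp' a) (hq' a)
  | bex hf _ ih =>
    intro x hC hx
    obtain ⟨t, ht⟩ := PolyF_term h hf hC hx
    obtain ⟨p, hp, hp'⟩ := ih (x := cons (fun p => p.2) (fun i p => x i p.1)) (by
      rintro g (⟨f, hf, rfl⟩ | rfl)
      · obtain ⟨i, hi⟩ := hC f hf
        exact ⟨i + 1, by rw [cons_succ, hi]⟩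
      · exact ⟨0, rfl⟩) (by
      intro m
      obtain ⟨i, hi⟩ := hx m
      exact ⟨i + 1, by rw [cons_succ, hi]⟩)
    refine ⟨Fm.exN (Fm.and (.lt (va 0) (t.sub fun i => va (i + 1))) p), Bdd.bex t hp,
      fun a => ?_⟩
    rw [sat_exN]
    refine exists_congr fun y => ?_
    have hfun : (fun i => cons (fun p : _ × M => p.2) (fun i p => x i p.1) i (a, y)) =
        cons y (fun i => x i a) := by
      funext i
      cases i <;> rfl
    rw [sat_and, sat_lt, val_shift, ht a]
    refine and_congr Iff.rfl ?_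
    rw [hp' (a, y), hfun]
    exact Iff.rfl

/-- Relations on `M × M` (coordinates `fst`, `snd`): the variable `x_0` is the second, `x_1` the first
component, the other variables are parameters. -/
theorem D0_formula2 [Countable M] (hS : S.Countable) (hne : S.Nonempty) {R : M × M → Prop}
    (hR : D0 S (M × M) (extC {fun x : M => x}) R) :
    ∃ (p : Fm) (v : ℕ → M) (V : ℕ → Set M), Bdd p ∧ (∀ i, V i ∈ S) ∧
      ∀ x w, R (x, w) ↔ Sat (strOf M S' h) (cons w (cons x v)) V p := by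
  obtain ⟨c, hc⟩ := exists_surjective_nat M
  obtain ⟨V, hV⟩ := hS.exists_eq_range hne
  obtain ⟨p, hp, hp'⟩ := D0_formula h hR (V := V) (fun X hX => by
      rw [hV] at hX
      exact hX) (x := cons (fun p => p.2) (cons (fun p => p.1) fun i _ => c i)) (by
      rintro g (⟨f, hf, rfl⟩ | rfl)
      · rw [Set.mem_singleton_iff] at hf
        rw [hf]
        exact ⟨1, rfl⟩
      · exact ⟨0, rfl⟩) (by
      intro m
      obtain ⟨i, hi⟩ := hc m
      exact ⟨i + 2, by funext a; exact hi⟩)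
  refine ⟨p, c, V, hp, fun i => ?_, fun x w => ?_⟩
  · rw [hV]
    exact ⟨i, rfl⟩
  · rw [hp' (x, w)]
    have hfun : (fun i => cons (fun p : M × M => p.2) (cons (fun p => p.1) fun i _ => c i) i (x, w)) =
        cons w (cons x c) := by
      funext i
      rcases i with _ | _ | i <;> rfl
    rw [hfun]
    exact Iff.rfl

/-- Relations on `M` . -/
theorem S1u_formula [Countable M] (hS : S.Countable) (hne : S.Nonempty) {P : M → Prop}
    (hP : S1u S P) : ∃ (p : Fm) (v : ℕ → M) (V : ℕ → Set M), Sigma01 p ∧ (∀ i, V i ∈ S) ∧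
      ∀ x, P x ↔ Sat (strOf M S' h) (cons x v) V p := by
  obtain ⟨R, hR, hPR⟩ := hP
  obtain ⟨p, v, V, hp, hV, hs⟩ := D0_formula2 h hS hne hR
  refine ⟨Fm.exN p, v, V, ⟨p, hp, rfl⟩, hV, fun x => ?_⟩
  rw [hPR x, sat_exN]
  exact exists_congr fun w => hs x w

end Pool.Agent.Work.MP_dfab40_lc.R
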