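import Pool.Agent.Work.MP_dfab40_lc.R.F.Str

/-!
# Module `DpSat` (size S-M): bounded formulas define `Δ_1` relations

PROOF.  `Df_val`: induction on the term (`Df.const`, `Df.add`, `Df.mul`).  `Dp_sat`: induction on
`Bdd p` (generalising the context `A` and `x`): `Dp.eq`, `Dp.lt`, `(Dp.param _).comp`,
`Dp.const False`, `Dp.imp`, `Dp.ball` (with the context `A × M` and `x' := cons snd (x_i ∘ fst)`, use
`val_shift`), `Dp.bex`; finish with `Dp.congr` and `simp`.
-/

namespace Pool.Agent.Work.MP_dfab40_lc.R

open Pool.Agent.RT

variable {M : Type} [PAm M] [ISig M] {S S' : Set (Set M)} (h : S'.Nonempty)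

theorem Df_val {A : Type} [Cd M A] {x : ℕ → A → M} (hx : ∀ i, Df S (x i)) (t : Tm) :
    Df (B := M) S (fun a => t.val (strOf M S' h) (fun i => x i a)) := by
  induction t with
  | var i => exact hx i
  | zero => exact Df.const (0 : M)
  | one => exact Df.const (1 : M)
  | add s t hs ht => exact Df.add hs ht
  | mul s t hs ht => exact Df.mul hs ht

theorem Dp_sat [IS S] {p : Fm} (hp : Bdd p) {V : ℕ → Set M} (hV : ∀ i, V i ∈ S) :
    ∀ {A : Type} [Cd M A] {x : ℕ → A → M}, (∀ i, Df S (x i)) →
      Dp S (fun a => Sat (strOf M S' h) (fun i => x i a) V p) := by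
  induction hp with
  | eq s t =>
    intro A _ x hx
    exact Dp.eq (B := M) (Df_val h hx s) (Df_val h hx t)
  | lt s t =>
    intro A _ x hx
    exact Dp.lt (M := M) (Df_val h hx s) (Df_val h hx t)
  | mem t X =>
    intro A _ x hx
    exact (Dp.param (hV X)).comp (Df_val h hx t)
  | bot =>
    intro A _ x _
    exact Dp.const False
  | imp _ _ ihp ihq =>
    intro A _ x hx
    exact (ihp hx).imp (ihq hx)
  | @ball t p _ ih =>
    intro A _ x hx
    have hx' : ∀ i, Df (A := A × M) (B := M) S
        ((fun i (q : A × M) => cons q.2 (fun j => x j q.1) i) i) := by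
      intro i
      cases i with
      | zero => exact Df.snd Df.id
      | succ i => exact (hx i).comp (Df.fst Df.id)
    have h1 := Dp.ball (M := M)
      (P := fun (a : A) (y : M) => Sat (strOf M S' h) (cons y (fun j => x j a)) V p)
      (Df_val h hx t) (ih hx')
    refine h1.congr fun a => ?_
    simp only [sat_allN, sat_imp, sat_lt, val_va, cons_zero]
    exact forall_congr' fun y => by rw [val_shift]; exact Iff.rfl
  | @bex t p _ ih =>
    intro A _ x hx
    have hx' : ∀ i, Df (A := A × M) (B := M) S
        ((fun i (q : A × M) => cons q.2 (fun j => x j q.1) i) i) := by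
      intro i
      cases i with
      | zero => exact Df.snd Df.id
      | succ i => exact (hx i).comp (Df.fst Df.id)
    have h1 := Dp.bex (M := M)
      (P := fun (a : A) (y : M) => Sat (strOf M S' h) (cons y (fun j => x j a)) V p)
      (Df_val h hx t) (ih hx')
    refine h1.congr fun a => ?_
    simp only [sat_exN, sat_and, sat_lt, val_va, cons_zero]
    exact exists_congr fun y => by rw [val_shift]; exact Iff.rfl

end Pool.Agent.Work.MP_dfab40_lc.R
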