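import Pool.Agent.Work.MP_dfab40_lc.R.F.D0Fm

/-!
# Module `FromBS` (size M): the scheme `BΣ^0_2` gives `BS2 S` in a countable structure

PROOF.  Let `R` be given, `S1 S (fun p : M × M => ¬ R p.1 p.2)`, that is
`¬ R (fs z) (sn z) ↔ ∃ w, Q (z, w)` with `Q` `D0` (for the instance `Cd.prod`, `Cd.e.symm z` is
`(fs z, sn z)` by `rfl` or `simp`).  By `D0_formula` (with the coordinates `w, z, y, i` of the context
`((M × M) × M) × M`, or simply: apply `D0_formula2` to `Q` to get a formula `q` in `w = x_0`,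
`z = x_1`, and `D0_formula` to `z = pr i y`, `D0_pr`) the relation
`pr i y = z ∧ ¬ Q (z, w)` of `w = x_0, z = x_1, y = x_2, i = x_3` is defined by a bounded formula `θ`.
The `Σ^0_2` formula `exN (allN θ)` in `y = x_0`, `i = x_1` says `R i y`.  Use `sat_bndAx`.
Hint: in the context `A := ((M × M) × M) × M` of triples `(((i, y), z), w)` with coordinates
`extC (extC (extC {id}))` the relation is `D0` by `D0_pr`, `D0.subst` (`R/A/Base`), `D0.and`, `D0.not`;
take the sequence `x 0 = w, x 1 = z, x 2 = y, x 3 = i, x (k + 4) = const (c k)`.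
-/

namespace Pool.Agent.Work.MP_dfab40_lc.R

open Pool.Agent.RT

variable {M : Type} [PAm M] [ISig M] {S : Set (Set M)}

theorem BS2_of_models [Countable M] (hS : S.Countable) (h : S.Nonempty)
    (hM : Models (strOf M S h) BSigma2) : BS2 S := by
  intro R hR b hb
  obtain ⟨T, hT, hT'⟩ := S1_pair.1 hR
  obtain ⟨V, hV⟩ := hS.exists_eq_range h
  have : Nonempty M := ⟨0⟩
  obtain ⟨c, hc⟩ := exists_surjective_nat M
  have hVS : ∀ i, V i ∈ S := fun i => by rw [hV]; exact Set.mem_range_self i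
  have hR' : D0 S (((M × M) × M) × M) (extC (extC (extC {fun x : M => x})))
      (fun a => ¬ T (a.1.1, a.2)) := by
    refine D0.not (hT.subst (g := fun a : ((M × M) × M) × M => (a.1.1, a.2)) ?_)
    exact PolyM.ext (PolyM.comp PolyM.fst PolyM.fst) PolyF.snd
  let x : ℕ → (((M × M) × M) × M) → M :=
    fun k a => cons a.2 (cons a.1.2 (cons a.1.1.2 (cons a.1.1.1 c))) k
  have hC : ∀ g ∈ extC (extC (extC {fun x : M => x})), ∃ i, x i = g := by
    rintro g (⟨f, (⟨f', (⟨f'', hf'', rfl⟩ | rfl), rfl⟩ | rfl), rfl⟩ | rfl)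
    · have h1 : f'' = fun x : M => x := hf''
      subst h1
      exact ⟨3, rfl⟩
    · exact ⟨2, rfl⟩
    · exact ⟨1, rfl⟩
    · exact ⟨0, rfl⟩
  have hx : ∀ m : M, ∃ i, x i = fun _ => m := by
    intro m
    obtain ⟨k, rfl⟩ := hc m
    exact ⟨k + 4, rfl⟩
  obtain ⟨p, hp, hpR⟩ := D0_formula h hR' (V := V)
    (fun X hX => by rw [hV] at hX; exact hX) hC hx
  have hax := hM (bndAx (Fm.exN (.allN p))) ⟨_, ⟨p, hp, rfl⟩, rfl⟩ c V hVS
  rw [sat_bndAx] at hax
  have key : ∀ i y : M, Sat (strOf M S h) (cons y (cons i c)) V (Fm.exN (.allN p)) ↔ R i y := by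
    intro i y
    rw [sat_exN]
    have h1 := hT' (i, y)
    constructor
    · rintro ⟨z, hz⟩
      by_contra hn
      obtain ⟨w, hw⟩ := h1.1 hn
      exact (hpR (((i, y), z), w)).2 (hz w) hw
    · intro hn
      refine ⟨(0 : M), fun w => ?_⟩
      exact (hpR (((i, y), 0), w)).1 fun hw => h1.2 ⟨w, hw⟩ hn
  obtain ⟨B, hB⟩ := hax b fun i hi => by
    obtain ⟨y, hy⟩ := hb i hi
    exact ⟨y, (key i y).2 hy⟩
  refine ⟨B, fun i hi => ?_⟩
  obtain ⟨y, hy, hy'⟩ := hB i hi
  exact ⟨y, hy, (key i y).1 hy'⟩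

end Pool.Agent.Work.MP_dfab40_lc.R
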