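import Pool.Agent.Work.MP_dfab40_lc.R.F.D0Fm

/-!
# Module `FromRCA` (size S-M): a countable model of `RCA_0` satisfies `IS S` and is closed under `Δ_1`

PROOF.  `IS_of_models`: for `S1u S P` take `p, v, V` from `S1u_formula` and the axiom `indAx p`
(`sat_indAx`).  `closed_of_models`: `Dp S P` means `S1u S P` and `S1u S (¬ P)` (the context is `M`,
`Cd.base`); two formulas `p`, `p'` with their own parameters: the assignments must be merged: put
`v'' (2 i) = v i`, `v'' (2 i + 1) = v' i` and substitute (`Sat_sub`, `Bdd_sub`-like lemma for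
`Sigma01`), or easier: use `D0_formula` with ONE enumeration for both (the sequences `x`, `V` in
`D0_formula` are arbitrary, take the same ones as in the proof of `D0_formula2`).  For the
comprehension axiom the `Π^0_1` formula is `allN (neg q')`, where `exN q'` defines `¬ P`.
-/

namespace Pool.Agent.Work.MP_dfab40_lc.R

open Pool.Agent.RT

variable {M : Type} [PAm M] {S : Set (Set M)}

private theorem formula_seq {h : S.Nonempty} {c : ℕ → M} (hc : Function.Surjective c)
    {V : ℕ → Set M} (hV : S = Set.range V) {P : M → Prop} (hP : S1u S P) :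
    ∃ p : Fm, Bdd p ∧ ∀ x, P x ↔ ∃ w, Sat (strOf M S h) (cons w (cons x c)) V p := by
  obtain ⟨R, hR, hPR⟩ := hP
  obtain ⟨p, hp, hp'⟩ := D0_formula h hR (V := V) (fun X hX => by
      rw [hV] at hX
      exact hX) (x := cons (fun p => p.2) (cons (fun p => p.1) fun i _ => c i)) (by
      rintro g (⟨f, hf, rfl⟩ | rfl)
      · rw [Set.mem_singleton_iff] at hf
        rw [hf]
        exact ⟨1, rfl⟩
      · exact ⟨0, rfl⟩) (by
      intro m
      obtain ⟨i, hi⟩ := hc m
      exact ⟨i + 2, by funext a; exact hi⟩)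
  refine ⟨p, hp, fun x => ?_⟩
  rw [hPR x]
  refine exists_congr fun w => ?_
  rw [hp' (x, w)]
  have hfun : (fun i => cons (fun p : M × M => p.2) (cons (fun p => p.1) fun i _ => c i) i (x, w)) =
      cons w (cons x c) := by
    funext i
    rcases i with _ | _ | i <;> rfl
  rw [hfun]
  exact Iff.rfl

theorem IS_of_models [Countable M] (hS : S.Countable) (h : S.Nonempty)
    (hM : Models (strOf M S h) RCA0) : IS S := by
  refine ⟨fun P hP h0 h1 => ?_⟩
  obtain ⟨p, v, V, hp, hV, hs⟩ := S1u_formula (S := S) (S' := S) h hS h hP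
  have h2 : Sat (strOf M S h) v V (indAx p) :=
    hM (indAx p) (Or.inl (Or.inr ⟨p, hp, rfl⟩)) v V hV
  intro x
  exact (hs x).2 ((sat_indAx (strOf M S h) v V p).1 h2 ((hs 0).1 h0)
    (fun (n : M) hn => (hs (n + 1)).1 (h1 n ((hs n).2 hn))) x)

theorem ISig_of_models [Countable M] (hS : S.Countable) (h : S.Nonempty)
    (hM : Models (strOf M S h) RCA0) : ISig M := by
  have h1 := IS_of_models hS h hM
  exact ⟨⟨fun P hP => h1.ind P (S1C.mono (CA := c1 M) (Set.empty_subset S) hP)⟩⟩

theorem closed_of_models [Countable M] (hS : S.Countable) (h : S.Nonempty)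
    (hM : Models (strOf M S h) RCA0) (P : M → Prop) (hP : Dp S P) : {x | P x} ∈ S := by
  obtain ⟨c, hc⟩ := exists_surjective_nat M
  obtain ⟨V, hV⟩ := hS.exists_eq_range h
  obtain ⟨p, hp, hps⟩ := formula_seq (h := h) hc hV (P := P) hP.1
  obtain ⟨q, hq, hqs⟩ := formula_seq (h := h) hc hV (P := fun x => ¬ P x) hP.2
  have hV' : ∀ i, V i ∈ (strOf M S h).S := fun i => by
    show V i ∈ S
    rw [hV]
    exact ⟨i, rfl⟩
  have h2 : Sat (strOf M S h) c V (compAx (Fm.exN p) (.allN (Fm.neg q))) :=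
    hM _ (Or.inr ⟨Fm.exN p, .allN (Fm.neg q), ⟨p, hp, rfl⟩, ⟨Fm.neg q, Bdd.imp hq Bdd.bot, rfl⟩,
      rfl⟩) c V hV'
  obtain ⟨X, hX, hX'⟩ := (sat_compAx (strOf M S h) c V _ _).1 h2 (by
    intro n
    rw [sat_exN, sat_allN]
    constructor
    · intro h3 w
      rw [sat_neg]
      intro h4
      exact (hqs n).2 ⟨w, h4⟩ ((hps n).2 h3)
    · intro h3
      refine (hps n).1 (by_contra fun h4 => ?_)
      obtain ⟨w, hw⟩ := (hqs n).1 h4
      exact h3 w hw)
  have h5 : {x | P x} = X := by
    ext n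
    refine Iff.trans ?_ (hX' n).symm
    rw [sat_exN]
    exact hps n
  rw [h5]
  exact hX

end Pool.Agent.Work.MP_dfab40_lc.R
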