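import Pool.Agent.Work.MP_dfab40_lc.R.ApiA

/-!
# Module `Join` (size S-M): finitely many sets are `Δ_1` in one set

PROOF.  Induction on `k`.  `k = 0`: any element of `S`.  Step: `X` for `k`, put
`Y := {z | (fs z = 0 ∧ sn z ∈ X) ∨ (fs z = 1 ∧ sn z ∈ V k)}`, which is in `S` by `hcl`.  Then
`sn z ∈ X ↔ pr 0 (sn z) ∈ Y`: `X` and `V k` are `Dp {Y}` (`Dp.param`, `Dp.comp`, `fs_pr`, `sn_pr`,
`0 ≠ 1` in `M`), and what is `Dp {X}` is `Dp {Y}` by `S1.trans` (`[IS {Y}]` by `IS.mono`, use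
`haveI`).
-/

namespace Pool.Agent.Work.MP_dfab40_lc.R

variable {M : Type} [PAm M] [ISig M] {S : Set (Set M)}

theorem BS2.mono {T : Set (Set M)} (h : T ⊆ S) (hS : BS2 S) : BS2 T :=
  fun R hR => hS R (S1.mono h hR)

theorem exists_join [IS S] (h : S.Nonempty) (hcl : ∀ P : M → Prop, Dp S P → {x | P x} ∈ S) (k : ℕ)
    (V : ℕ → Set M) (hV : ∀ i, i < k → V i ∈ S) :
    ∃ X ∈ S, ∀ i, i < k → Dp ({X} : Set (Set M)) (fun x : M => x ∈ V i) := by
  induction k with
  | zero =>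
    obtain ⟨X, hX⟩ := h
    exact ⟨X, hX, fun i hi => absurd hi (Nat.not_lt_zero i)⟩
  | succ k ih =>
    obtain ⟨X, hX, hi⟩ := ih fun i hi => hV i (Nat.lt_succ_of_lt hi)
    have hVk : V k ∈ S := hV k (Nat.lt_succ_self k)
    have h01 : (0 : M) ≠ 1 := zero_ne_one
    have hY : Dp S (fun z : M => (fs z = 0 ∧ sn z ∈ X) ∨ (fs z = 1 ∧ sn z ∈ V k)) := by
      have h1 : Dp S (fun z : M => fs z = 0) := Dp.eq (Df.fs Df.id) (Df.const 0)
      have h2 : Dp S (fun z : M => fs z = 1) := Dp.eq (Df.fs Df.id) (Df.const 1)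
      have h3 : Dp S (fun z : M => sn z ∈ X) :=
        Dp.comp (P := fun x : M => x ∈ X) (Dp.param hX) (Df.sn Df.id)
      have h4 : Dp S (fun z : M => sn z ∈ V k) :=
        Dp.comp (P := fun x : M => x ∈ V k) (Dp.param hVk) (Df.sn Df.id)
      exact (h1.and h3).or (h2.and h4)
    set Y : Set M := {z | (fs z = 0 ∧ sn z ∈ X) ∨ (fs z = 1 ∧ sn z ∈ V k)} with hYdef
    have hYS : Y ∈ S := hcl _ hY
    haveI : IS ({Y} : Set (Set M)) := IS.mono (Set.singleton_subset_iff.2 hYS) inferInstance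
    have hYp : Dp ({Y} : Set (Set M)) (fun z : M => z ∈ Y) := Dp.param rfl
    have hXY : Dp ({Y} : Set (Set M)) (fun z : M => z ∈ X) := by
      refine (Dp.comp (P := fun z : M => z ∈ Y) hYp (Df.pr (Df.const 0) Df.id)).congr
        fun z => ?_
      simp only [hYdef, Set.mem_setOf_eq, fs_pr, sn_pr, true_and, h01, false_and, or_false]
    have hVY : Dp ({Y} : Set (Set M)) (fun z : M => z ∈ V k) := by
      refine (Dp.comp (P := fun z : M => z ∈ Y) hYp (Df.pr (Df.const 1) Df.id)).congr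
        fun z => ?_
      simp only [hYdef, Set.mem_setOf_eq, fs_pr, sn_pr, true_and, h01.symm, false_and, false_or]
    refine ⟨Y, hYS, fun i hik => ?_⟩
    rcases Nat.lt_succ_iff_lt_or_eq.1 hik with hlt | rfl
    · have hT : ∀ Z ∈ ({X} : Set (Set M)), Dp ({Y} : Set (Set M)) (fun x : M => x ∈ Z) := by
        intro Z hZ
        rw [Set.mem_singleton_iff.1 hZ]
        exact hXY
      exact ⟨S1.trans hT (hi i hlt).1, S1.trans hT (hi i hlt).2⟩
    · exact hVY

end Pool.Agent.Work.MP_dfab40_lc.R
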