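import Pool.Agent.Work.MP_dfab40_lc.R.F.DpSat

/-!
# Module `ModBS` (size S-M): `BS2 S` gives the scheme `BΣ^0_2`

PROOF.  `p = exN (allN q)`, `q` bounded; `sat_bndAx`.  Let
`R i u := ∀ w, Sat (cons w (cons (fs u) (cons (sn u) (cons i v)))) V q` (the number `u` codes the
witness `z = fs u` of the outer quantifier and `y = sn u`; the order of the variables is
`x_0 = w, x_1 = z, x_2 = y, x_3 = i`).  `¬ R` is `S1` on `M × M` (`S1.ex`, `Dp_sat` in the context
`(M × M) × M`, `Dp.not`).  By hypothesis for all `i < a` there is `u` with `R i u` (`u = pr z y`), so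
`hB` gives `B`; take `b := B`, `y = sn u ≤ u < B` (`sn_le`).
-/

namespace Pool.Agent.Work.MP_dfab40_lc.R

open Pool.Agent.RT

variable {M : Type} [PAm M] [ISig M] {S : Set (Set M)}

private theorem df_cons {A : Type} [Cd M A] {f : A → M} {g : ℕ → A → M} (hf : Df S f)
    (hg : ∀ i, Df S (g i)) : ∀ i, Df S ((cons f g : ℕ → A → M) i) := by
  intro i
  cases i
  · exact hf
  · exact hg _

/-- The assignment of the values `w, z = fs u, y = sn u, i`. -/
private noncomputable def asg (v : ℕ → M) (i u w : M) : ℕ → M :=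
  cons w (cons (fs u) (cons (sn u) (cons i v)))

/-- Satisfaction for assignments with values in `M`. -/
private def SatM (h : S.Nonempty) (V : ℕ → Set M) (q : Fm) (x : ℕ → M) : Prop :=
  Sat (strOf M S h) x V q

private theorem dp_asg [IS S] (h : S.Nonempty) {q : Fm} (hq : Bdd q) (v : ℕ → M)
    {V : ℕ → Set M} (hV : ∀ i, V i ∈ S) :
    Dp S (fun r : (M × M) × M => SatM h V q (asg v r.1.1 r.1.2 r.2)) := by
  have h1 := Dp_sat (S := S) (S' := S) h hq (V := V) hV (A := (M × M) × M)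
    (x := cons (fun r => r.2) (cons (fun r => fs r.1.2) (cons (fun r => sn r.1.2)
      (cons (fun r => r.1.1) (fun i _ => v i)))))
    (df_cons (Df.snd Df.id) (df_cons (Df.fs (Df.snd (Df.fst Df.id)))
      (df_cons (Df.sn (Df.snd (Df.fst Df.id))) (df_cons (Df.fst (Df.fst Df.id))
        (fun i => Df.const (v i))))))
  have h2 : ∀ r : (M × M) × M, (fun i => (cons (fun r => r.2) (cons (fun r => fs r.1.2)
      (cons (fun r => sn r.1.2) (cons (fun r => r.1.1) (fun i _ => v i)))) :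
        ℕ → (M × M) × M → M) i r) = asg v r.1.1 r.1.2 r.2 := by
    intro r
    funext i
    rcases i with _ | _ | _ | _ | i <;> rfl
  refine Dp.congr h1 fun r => ?_
  rw [← h2 r]
  rfl

private theorem bnd_aux [IS S] (hB : BS2 S) (h : S.Nonempty) {q : Fm} (hq : Bdd q) (v : ℕ → M)
    {V : ℕ → Set M} (hV : ∀ i, V i ∈ S) (a : M)
    (ha : ∀ i : M, i < a → ∃ y z : M, ∀ w : M,
      Sat (strOf M S h) (cons w (cons z (cons y (cons i v)))) V q) :
    ∃ b : M, ∀ i : M, i < a → ∃ y : M, y < b ∧ ∃ z : M, ∀ w : M,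
      Sat (strOf M S h) (cons w (cons z (cons y (cons i v)))) V q := by
  have hR : S1 S (fun p : M × M => ¬ ∀ w : M, SatM h V q (asg v p.1 p.2 w)) := by
    have h1 : S1 S (fun p : M × M => ∃ w : M, ¬ SatM h V q (asg v p.1 p.2 w)) :=
      S1.ex (P := fun (p : M × M) (w : M) => ¬ SatM h V q (asg v p.1 p.2 w))
        (Dp.not (dp_asg h hq v hV)).1
    have h2 : (fun p : M × M => ¬ ∀ w : M, SatM h V q (asg v p.1 p.2 w)) =
        (fun p : M × M => ∃ w : M, ¬ SatM h V q (asg v p.1 p.2 w)) := by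
      funext p
      exact propext not_forall
    rw [h2]
    exact h1
  obtain ⟨B, hB'⟩ := hB (fun i u => ∀ w : M, SatM h V q (asg v i u w)) hR a (by
    intro i hi
    obtain ⟨y, z, hz⟩ := ha i hi
    refine ⟨pr z y, fun w => ?_⟩
    unfold asg
    rw [fs_pr, sn_pr]
    unfold SatM
    exact hz w)
  refine ⟨B, fun i hi => ?_⟩
  obtain ⟨u, hu, hRu⟩ := hB' i hi
  exact ⟨sn u, lt_of_le_of_lt (sn_le u) hu, fs u, hRu⟩

theorem models_BSigma2 [IS S] (hB : BS2 S) (h : S.Nonempty) : Models (strOf M S h) BSigma2 := by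
  intro p hp
  obtain ⟨q', ⟨q, hq, rfl⟩, rfl⟩ := hp
  intro v V hV
  rw [sat_bndAx]
  simp only [sat_exN, sat_allN]
  intro a ha
  exact bnd_aux hB h hq v hV a ha

end Pool.Agent.Work.MP_dfab40_lc.R
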