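import Pool.Agent.Work.MP_dfab40_lc.R.F.DpSat

/-!
# Module `ModRCA` (size S-M): `IΣ_1(S)` and closure under `Δ_1` give a model of `RCA_0`

PROOF.  Basic axioms: cases on `Basic p`, `simp [Valid]`, facts about `PAm` (order facts in
`R/A/Base`: `PAm.lt_succ`, `PAm.not_lt_zero`, ...).  Induction: `sat_indAx`; for `p = exN q` the
predicate `n ↦ ∃ w, Sat (cons w (cons n v)) V q` is `S1` (`S1.ex` and `Dp_sat` in the context `M × M`,
coordinates `snd`, `fst`, constants `v i`), then `ind_S1`.  Comprehension: `sat_compAx`; `p` is `S1`,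
`q = allN r` is the negation of an `S1` predicate, so `n ↦ Sat (cons n v) V p` is `Dp S` (if they are
equivalent), and `hcl` gives the set.
-/

namespace Pool.Agent.Work.MP_dfab40_lc.R

open Pool.Agent.RT

variable {M : Type} [PAm M] [ISig M] {S : Set (Set M)}

private theorem mr_dp [IS S] {S' : Set (Set M)} (h : S'.Nonempty) {q : Fm} (hq : Bdd q)
    (v : ℕ → M) {V : ℕ → Set M} (hV : ∀ i, V i ∈ S) :
    Dp S (fun p : M × M => Sat (strOf M S' h) (cons p.2 (cons p.1 v)) V q) := by
  have h1 := Dp_sat (S := S) (S' := S') h hq hV (A := M × M)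
    (x := fun i => match i with
      | 0 => fun p => p.2
      | 1 => fun p => p.1
      | i + 2 => fun _ => v i) (by
      intro i
      rcases i with _ | _ | i
      · exact Df.snd Df.id
      · exact Df.fst Df.id
      · exact Df.const (v i))
  refine Dp.congr h1 fun p => ?_
  have h2 : (fun i => (match i with
      | 0 => fun p : M × M => p.2
      | 1 => fun p : M × M => p.1
      | i + 2 => fun _ => v i : M × M → M) p) = cons p.2 (cons p.1 v) := by
    funext i
    rcases i with _ | _ | i <;> rfl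
  rw [h2]
  exact Iff.rfl

/-- `Σ^0_1` formulas define `S1` predicates (variable `x_0`, the others are parameters). -/
theorem S1_sat [IS S] {S' : Set (Set M)} (h : S'.Nonempty) {p : Fm} (hp : Sigma01 p) (v : ℕ → M)
    {V : ℕ → Set M} (hV : ∀ i, V i ∈ S) : S1 S (fun n : M => Sat (strOf M S' h) (cons n v) V p) := by
  obtain ⟨q, hq, rfl⟩ := hp
  have h1 := (mr_dp h hq v hV).1
  have h2 := S1.ex (P := fun (n w : M) => Sat (strOf M S' h) (cons w (cons n v)) V q) h1
  have h3 : (fun n : M => Sat (strOf M S' h) (cons n v) V (Fm.exN q)) =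
      fun n : M => ∃ w : M, Sat (strOf M S' h) (cons w (cons n v)) V q :=
    funext fun n => propext (sat_exN _ _ _ _)
  rw [h3]
  exact h2

/-- `Π^0_1` formulas define complements of `S1` predicates. -/
theorem P1_sat [IS S] {S' : Set (Set M)} (h : S'.Nonempty) {p : Fm} (hp : Pi01 p) (v : ℕ → M)
    {V : ℕ → Set M} (hV : ∀ i, V i ∈ S) :
    S1 S (fun n : M => ¬ Sat (strOf M S' h) (cons n v) V p) := by
  obtain ⟨q, hq, rfl⟩ := hp
  have h1 := (mr_dp h hq v hV).2
  have h2 := S1.ex (P := fun (n w : M) => ¬ Sat (strOf M S' h) (cons w (cons n v)) V q) h1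
  have h3 : (fun n : M => ¬ Sat (strOf M S' h) (cons n v) V (.allN q)) =
      fun n : M => ∃ w : M, ¬ Sat (strOf M S' h) (cons w (cons n v)) V q := by
    funext n
    apply propext
    rw [sat_allN]
    exact not_forall
  rw [h3]
  exact h2

private theorem mr_basic (h : S.Nonempty) {p : Fm} (hp : Basic p) (v : ℕ → M) (V : ℕ → Set M) :
    Sat (strOf M S h) v V p := by
  cases hp with
  | succ_ne_zero =>
    intro (h1 : v 1 + 1 = 0)
    have h2 : (0 : M) < v 1 + 1 := lt_of_lt_of_le zero_lt_one le_add_self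
    rw [h1] at h2
    exact lt_irrefl _ h2
  | succ_inj =>
    intro (h1 : v 0 + 1 = v 1 + 1)
    have h2 : v 0 = v 1 := add_right_cancel h1
    exact h2
  | add_zero => exact add_zero (v 0)
  | add_succ => exact (add_assoc (v 0) (v 1) 1).symm
  | mul_zero => exact mul_zero (v 0)
  | mul_succ =>
    show v 0 * (v 1 + 1) = v 0 * v 1 + v 0
    rw [mul_add, mul_one]
  | not_lt_zero =>
    intro (h1 : v 0 < 0)
    exact absurd h1 (not_lt.2 zero_le)
  | lt_succ =>
    rw [sat_iff, sat_or]
    show v 0 < v 1 + 1 ↔ (v 0 < v 1 ∨ v 0 = v 1)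
    rw [lt_succ_iff, le_iff_lt_or_eq]

theorem models_RCA0 [IS S] (h : S.Nonempty) (hcl : ∀ P : M → Prop, Dp S P → {x | P x} ∈ S) :
    Models (strOf M S h) RCA0 := by
  intro p hp v V hV
  rcases hp with (hp | ⟨q, hq, rfl⟩) | ⟨q, r, hq, hr, rfl⟩
  · exact mr_basic h hp v V
  · rw [sat_indAx]
    intro h0 h1 n
    exact ind_S1 (S := S) (P := fun n : M => Sat (strOf M S h) (cons n v) V q)
      (S1_sat h hq v hV) h0 h1 n
  · rw [sat_compAx]
    intro heq
    have h1 : Dp S (fun n : M => Sat (strOf M S h) (cons n v) V q) := by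
      refine ⟨S1_sat h hq v hV, ?_⟩
      have h2 := P1_sat (S := S) h hr v hV
      have h3 : (fun n : M => ¬ Sat (strOf M S h) (cons n v) V q) =
          fun n : M => ¬ Sat (strOf M S h) (cons n v) V r :=
        funext fun n => propext (not_congr (heq n))
      rw [h3]
      exact h2
    exact ⟨_, hcl _ h1, fun n => Iff.rfl⟩

end Pool.Agent.Work.MP_dfab40_lc.R
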