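import Pool.Agent.Work.MP_dfab40_lc.R.F.Str

/-!
# Module `ModRT` (size S-M): the semantic forms of `RT^2_2`, `SRT^2_2` and the sentences

PROOF.  `valid_RT22`: `valid_RT22_iff`; for `C ∈ S` take `c x y := (x + y) * (x + y) + x ∈ C`, which is
`Dp S` (`Dp.param`, `Dp.comp`, `Df.add`, ...); `j = true` gives the first, `j = false` the second
alternative; unbounded: apply `∃ x ∈ H, a + 1 ≤ x` to get `a < x`.
`valid_SRT22_of_RT22`: pure logic in an arbitrary structure (unfold with `sat_allS`, `sat_imp`).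
`code_inj`: in `PAm`, `(x + y)^2 + x = (x' + y')^2 + x'` implies `x = x'`, `y = y'`: if
`x + y < x' + y'` then `(x + y)^2 + x ≤ (x + y)^2 + (x + y) < (x + y + 1)^2 ≤ (x' + y')^2`.
`stable_of_SRT22`: `valid_SRT22_iff`; `C := {z | ∃ x y, x ≤ z ∧ y ≤ z ∧ z = (x + y)^2 + x ∧ c x y}` is
`Dp S`, so in `S` by `hcl` (bounded quantifiers: `x < z + 1`), and by `code_inj`
`(x + y)^2 + x ∈ C ↔ c x y`.
-/

namespace Pool.Agent.Work.MP_dfab40_lc.R

open Pool.Agent.RT

variable {M : Type} [PAm M] [ISig M] {S : Set (Set M)}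

theorem valid_RT22 (h : S.Nonempty) (hR : ∀ c : M → M → Prop, Dp S (fun p : M × M => c p.1 p.2) →
    ∃ (j : Bool) (H : Set M), H ∈ S ∧ (∀ a, ∃ x ∈ H, a ≤ x) ∧
      ∀ x ∈ H, ∀ y ∈ H, x < y → (c x y ↔ j = true)) : Valid (strOf M S h) RT22 := by
  rw [valid_RT22_iff]
  intro C hC
  have hc : Dp S (fun p : M × M => (p.1 + p.2) * (p.1 + p.2) + p.1 ∈ C) :=
    Dp.comp (P := fun x : M => x ∈ C) (Dp.param hC)
      (Df.add (Df.mul (Df.add (Df.fst Df.id) (Df.snd Df.id))
        (Df.add (Df.fst Df.id) (Df.snd Df.id))) (Df.fst Df.id))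
  obtain ⟨j, H, hH, hu, hh⟩ := hR (fun x y => (x + y) * (x + y) + x ∈ C) hc
  refine ⟨H, hH, fun a => ?_, ?_⟩
  · obtain ⟨x, hx, hax⟩ := hu (a + 1)
    exact ⟨x, succ_le_iff'.1 hax, hx⟩
  · cases j with
    | true => exact Or.inl fun x y hxy hx hy => (hh x hx y hy hxy).2 rfl
    | false =>
      exact Or.inr fun x y hxy hx hy hm => Bool.false_ne_true ((hh x hx y hy hxy).1 hm)

theorem valid_SRT22_of_RT22 (A : L2Str) (h : Valid A RT22) : Valid A SRT22 := by
  intro v V hV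
  have h1 := h v V hV
  rw [SRT22, sat_allS]
  rw [RT22, sat_allS] at h1
  intro X hX
  rw [sat_imp]
  exact fun _ => h1 X hX

omit [ISig M] in
theorem code_inj {x y x' y' : M} (h : (x + y) * (x + y) + x = (x' + y') * (x' + y') + x') :
    x = x' ∧ y = y' := by
  have key : ∀ {a b a' b' : M}, a + b < a' + b' →
      (a + b) * (a + b) + a < (a' + b') * (a' + b') + a' := by
    intro a b a' b' hab
    have h1 : a + b + 1 ≤ a' + b' := PAm.succ_le.2 hab
    have h2 : (a + b) * (a + b) + a < (a + b + 1) * (a + b + 1) := by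
      obtain ⟨r, hr⟩ : ∃ r : M, r = a + b + b + 1 := ⟨_, rfl⟩
      have h3 : (a + b + 1) * (a + b + 1) = ((a + b) * (a + b) + a) + r := by
        rw [hr]; ring
      rw [h3]
      refine lt_add_of_pos_right _ ?_
      rw [hr]
      exact lt_of_lt_of_le zero_lt_one (le_add_of_nonneg_left zero_le)
    have h4 : (a + b + 1) * (a + b + 1) ≤ (a' + b') * (a' + b') :=
      mul_le_mul h1 h1 zero_le zero_le
    exact lt_of_lt_of_le (lt_of_lt_of_le h2 h4) (le_add_of_nonneg_right zero_le)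
  have hs : x + y = x' + y' := by
    rcases lt_trichotomy (x + y) (x' + y') with h1 | h1 | h1
    · exact absurd h (key h1).ne
    · exact h1
    · exact absurd h.symm (key h1).ne
  have hx : x = x' := by
    rw [hs] at h
    exact add_left_cancel h
  subst hx
  exact ⟨rfl, add_left_cancel hs⟩

theorem stable_of_SRT22 [IS S] (h : S.Nonempty) (hcl : ∀ P : M → Prop, Dp S P → {x | P x} ∈ S)
    (hv : Valid (strOf M S h) SRT22) (c : M → M → Prop) (hc : Dp S (fun p : M × M => c p.1 p.2))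
    (hst : ∀ x, ∃ z, ∀ y, z ≤ y → (c x y ↔ c x z)) :
    ∃ (j : Bool) (H : Set M), H ∈ S ∧ (∀ a, ∃ x ∈ H, a ≤ x) ∧
      ∀ x ∈ H, ∀ y ∈ H, x < y → (c x y ↔ j = true) := by
  rw [valid_SRT22_iff] at hv
  set C : Set M := {z | ∃ x, x < z + 1 ∧ ∃ y, y < z + 1 ∧ z = (x + y) * (x + y) + x ∧ c x y}
    with hCdef
  have hCS : C ∈ S := by
    refine hcl _ ?_
    refine Dp.bex (P := fun z x => ∃ y, y < z + 1 ∧ z = (x + y) * (x + y) + x ∧ c x y)
      (Df.add Df.id (Df.const 1)) ?_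
    refine Dp.bex (A := M × M)
      (P := fun (q : M × M) y => q.1 = (q.2 + y) * (q.2 + y) + q.2 ∧ c q.2 y)
      (Df.add (Df.fst Df.id) (Df.const 1)) ?_
    have f1 : Df S (fun p : (M × M) × M => p.1.1) := Df.fst (Df.fst Df.id)
    have f2 : Df S (fun p : (M × M) × M => p.1.2) := Df.snd (Df.fst Df.id)
    have f3 : Df S (fun p : (M × M) × M => p.2) := Df.snd Df.id
    have e1 : Dp S (fun p : (M × M) × M => p.1.1 = (p.1.2 + p.2) * (p.1.2 + p.2) + p.1.2) :=
      Dp.eq (B := M) f1 (Df.add (Df.mul (Df.add f2 f3) (Df.add f2 f3)) f2)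
    have e2 : Dp S (fun p : (M × M) × M => c p.1.2 p.2) :=
      Dp.comp (P := fun p : M × M => c p.1 p.2) hc (Df.pair f2 f3)
    exact e1.and e2
  have hsq : ∀ w : M, w ≤ w * w := by
    intro w
    rcases eq_or_lt_of_le (zero_le : (0 : M) ≤ w) with h1 | h1
    · rw [← h1, mul_zero]
    · calc w = w * 1 := (mul_one w).symm
        _ ≤ w * w := mul_le_mul le_rfl (PAm.one_le_of_pos w h1) zero_le zero_le
  have hiff : ∀ x y : M, (x + y) * (x + y) + x ∈ C ↔ c x y := by
    intro x y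
    constructor
    · rintro ⟨x', _, y', _, he, hc'⟩
      obtain ⟨rfl, rfl⟩ := code_inj he
      exact hc'
    · intro hc'
      have h1 : x + y ≤ (x + y) * (x + y) + x :=
        (hsq _).trans (le_add_of_nonneg_right zero_le)
      exact ⟨x, lt_succ_iff.2 ((le_add_of_nonneg_right zero_le).trans h1), y,
        lt_succ_iff.2 ((le_add_of_nonneg_left zero_le).trans h1), rfl, hc'⟩
  obtain ⟨H, hH, hu, hh⟩ := hv C hCS (by
    intro x
    obtain ⟨z, hz⟩ := hst x
    refine ⟨z, ?_⟩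
    by_cases hcz : c x z
    · exact Or.inl fun y _ hy => (hiff x y).2 ((hz y hy.le).2 hcz)
    · exact Or.inr fun y _ hy hm => hcz ((hz y hy.le).1 ((hiff x y).1 hm)))
  rcases hh with hh | hh
  · refine ⟨true, H, hH, fun a => ?_, fun x hx y hy hxy => ?_⟩
    · obtain ⟨x, hax, hx⟩ := hu a
      exact ⟨x, hx, hax.le⟩
    · exact ⟨fun _ => rfl, fun _ => (hiff x y).1 (hh x y hxy hx hy)⟩
  · refine ⟨false, H, hH, fun a => ?_, fun x hx y hy hxy => ?_⟩
    · obtain ⟨x, hax, hx⟩ := hu a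
      exact ⟨x, hx, hax.le⟩
    · exact ⟨fun h1 => absurd ((hiff x y).2 h1) (hh x y hxy hx hy),
        fun h1 => absurd h1 Bool.false_ne_true⟩

end Pool.Agent.Work.MP_dfab40_lc.R
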