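import Pool.Agent.Work.MP_dfab40_lc.R.ApiB

/-!
# No `Δ_1` injection from an unbounded set into `[0, b)` (block F2b)
-/

namespace Pool.Agent.Work.MP_dfab40_lc.R

variable {M : Type} [PAm M] [ISig M] {S : Set (Set M)}

theorem no_inj [IS S] {P : M → Prop} (hP : Dp S P) (hu : ∀ a, ∃ n, a ≤ n ∧ P n) {g : M → M}
    (hg : Df S g) {b : M} (hb : ∀ n, g n < b)
    (hinj : ∀ x y, P x → P y → x < y → g x ≠ g y) : False := by
  have hQ : Dp S (fun p : M × M => ∃ n, n < p.1 ∧ (P n ∧ g n = p.2)) := by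
    refine Dp.bex (Df.fst Df.id) (Dp.and (Dp.comp hP (Df.snd Df.id)) ?_)
    exact Dp.eq (Df.comp hg (Df.snd Df.id)) (Df.snd (Df.fst Df.id))
  have hQm : ∀ m : M, Dp S (fun v : M => ∃ n, n < m ∧ (P n ∧ g n = v)) := fun m =>
    Dp.comp (P := fun p : M × M => ∃ n, n < p.1 ∧ (P n ∧ g n = p.2)) hQ
      (Df.pair (Df.const m) Df.id)
  let F : M → M := fun m => sep b (fun v => ∃ n, n < m ∧ (P n ∧ g n = v))
  have hF : Df S F :=
    Df.sep (A := M) (P := fun m v => ∃ n, n < m ∧ (P n ∧ g n = v)) (Df.const b) hQ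
  have mF : ∀ m v, Mem v (F m) ↔ v < b ∧ ∃ n, n < m ∧ (P n ∧ g n = v) := fun m v =>
    mem_sep (hQm m)
  have mono : ∀ m m', m ≤ m' → F m ≤ F m' := by
    intro m m' h
    refine le_of_subset fun v hv => ?_
    obtain ⟨h1, n, hn, h2⟩ := (mF m v).1 hv
    exact (mF m' v).2 ⟨h1, n, lt_of_lt_of_le hn h, h2⟩
  have strict : ∀ n, P n → F n < F (n + 1) := by
    intro n hn
    refine lt_of_le_of_ne (mono n (n + 1) le_self_add) fun he => ?_
    have h1 : Mem (g n) (F (n + 1)) := (mF _ _).2 ⟨hb n, n, lt_succ_iff.2 le_rfl, hn, rfl⟩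
    rw [← he] at h1
    obtain ⟨-, k, hk, hPk, hgk⟩ := (mF _ _).1 h1
    exact hinj k n hPk hn hk hgk
  have big : ∀ k, ∃ m, k ≤ F m := by
    intro k
    refine ind_S1 (S := S) (P := fun k => ∃ m, k ≤ F m) ?_ ?_ ?_ k
    · exact S1.ex (A := M) (B := M) (P := fun k m => k ≤ F m)
        (Dp.le (Df.fst Df.id) (Df.comp hF (Df.snd Df.id))).1
    · exact ⟨0, zero_le⟩
    · rintro x ⟨m, hm⟩
      obtain ⟨n, hn, hPn⟩ := hu m
      refine ⟨n + 1, succ_le_iff'.2 ?_⟩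
      exact lt_of_le_of_lt (le_trans hm (mono m n hn)) (strict n hPn)
  obtain ⟨m, hm⟩ := big (pow2 b)
  exact absurd (lt_of_le_of_lt hm (sep_lt (hQm m) b)) (lt_irrefl _)

end Pool.Agent.Work.MP_dfab40_lc.R
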