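import Pool.Agent.Work.MP_dfab40_lc.R.F.SrtSlow
import Pool.Agent.Work.MP_dfab40_lc.R.F.SrtPig

/-!
# `SRT^2_2` implies `BΣ_2` (block F2b)
-/

namespace Pool.Agent.Work.MP_dfab40_lc.R

variable {M : Type} [PAm M] [ISig M]

/-- Stable Ramsey implies `Σ_2` collection. -/
theorem srt_bs2 (I : Set (Set M)) [IS I]
    (hS : ∀ c : M → M → Prop, Dp I (fun p : M × M => c p.1 p.2) →
      (∀ x, ∃ z, ∀ y, z ≤ y → (c x y ↔ c x z)) →
      ∃ (j : Bool) (H : Set M), H ∈ I ∧ (∀ a, ∃ x ∈ H, a ≤ x) ∧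
        ∀ x ∈ H, ∀ y ∈ H, x < y → (c x y ↔ j = true)) : BS2 I := by
  intro R hR b h1
  by_contra hno
  have h2 : ∀ B, ∃ x, x < b ∧ ∀ y, y < B → ¬ R x y := by
    intro B
    by_contra h3
    refine hno ⟨B, fun x hx => ?_⟩
    by_contra h4
    exact h3 ⟨x, hx, fun y hy hxy => h4 ⟨y, hy, hxy⟩⟩
  obtain ⟨g, hg, hgb, hgc⟩ := exists_slow hR h1 h2
  have hc : Dp I (fun p : M × M => g p.1 = g p.2) :=
    Dp.eq (Df.comp hg (Df.fst Df.id)) (Df.comp hg (Df.snd Df.id))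
  obtain ⟨j, H, hH, hu, hj⟩ := hS (fun x y => g x = g y) hc (by
    intro x
    obtain ⟨m, hm⟩ := hgc (g x)
    refine ⟨m, fun y hy => ?_⟩
    constructor
    · intro h; exact absurd h.symm (hm y hy)
    · intro h; exact absurd h.symm (hm m le_rfl))
  cases j with
  | true =>
    obtain ⟨x, hx, -⟩ := hu 0
    obtain ⟨m, hm⟩ := hgc (g x)
    obtain ⟨y, hy, hy'⟩ := hu (m + x + 1)
    have hxy : x < y := lt_of_lt_of_le (lt_succ_iff.2 le_add_self) hy'
    refine hm y (le_trans (le_trans le_self_add le_self_add) hy') ?_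
    exact ((hj x hx y hy hxy).2 rfl).symm
  | false =>
    refine no_inj (S := I) (P := fun x => x ∈ H) (Dp.param hH) ?_ hg hgb ?_
    · intro a
      obtain ⟨x, hx, hx'⟩ := hu a
      exact ⟨x, hx', hx⟩
    · intro x y hx hy hxy h
      have := (hj x hx y hy hxy).1 h
      exact absurd this (by simp)

end Pool.Agent.Work.MP_dfab40_lc.R
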