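import Pool.Agent.Work.MP_dfab40_lc.R.F.Ideal
import Pool.Agent.Work.MP_dfab40_lc.R.F.Join
import Pool.Agent.Work.MP_dfab40_lc.R.F.Srt
import Pool.Agent.Work.MP_dfab40_lc.R.F.BasB
import Pool.Agent.Work.MP_dfab40_lc.R.F.FromRCA
import Pool.Agent.Work.MP_dfab40_lc.R.F.FromBS
import Pool.Agent.Work.MP_dfab40_lc.R.F.ModRCA
import Pool.Agent.Work.MP_dfab40_lc.R.F.ModBS
import Pool.Agent.Work.MP_dfab40_lc.R.F.ModRT
import Pool.Agent.Work.MP_dfab40_lc.R.F.Absol
import Pool.Agent.Work.MP_dc6514_lc.R.GModel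

/-!
# Final assembly: `RT^2_2` and `SRT^2_2` are `Π^1_1`-conservative over `RCA_0 + BΣ^0_2`
-/

namespace Pool.Agent.RT

open Pool.Agent.Work.MP_dfab40_lc.R

/-- `Π^1_1` formulas may be replaced by arithmetical formulas with free set variables. -/
theorem Pi11.arith' {p : Fm} (hp : Pi11 p) : ∃ q, Arith q ∧ ∀ A : L2Str, Valid A p ↔ Valid A q := by
  induction hp with
  | arith h => exact ⟨_, h, fun _ => Iff.rfl⟩
  | allS _ ih =>
    obtain ⟨q, hq, h⟩ := ih
    exact ⟨q, hq, fun A => (Valid_allS A _).trans (h A)⟩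

/-- Every countable model of `RCA_0 + BΣ^0_2` in which an arithmetical formula fails extends to a
model of `RCA_0 + RT^2_2` with the same numbers in which the formula fails. -/
theorem conserv {p : Fm} (hp : Arith p) (h : Prf (RCA0 ∪ {RT22}) [] p) :
    Prf (RCA0 ∪ BSigma2) [] p := by
  by_contra hn
  obtain ⟨A, hc, hSc, hA, v, V, hV, hs⟩ := complete hn
  have hR : Models A RCA0 := fun q hq => hA q (Or.inl hq)
  have hBS : Models A BSigma2 := fun q hq => hA q (Or.inr hq)
  obtain ⟨i, hi⟩ := exists_PAm A hR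
  rcases A with ⟨M, zero, one, add, mul, lt, S, hne⟩
  dsimp only at i hc hSc v V hV hi
  simp only [strOf, L2Str.mk.injEq, heq_eq_eq, true_and, and_true] at hi
  obtain ⟨rfl, rfl, rfl, rfl, rfl⟩ := hi
  change Models (strOf M S hne) RCA0 at hR
  change Models (strOf M S hne) BSigma2 at hBS
  change ¬ Sat (strOf M S hne) v V p at hs
  have hIS : IS S := IS_of_models hSc hne hR
  have hISig : ISig M := ISig_of_models hSc hne hR
  have hcl := closed_of_models hSc hne hR
  have hB : BS2 S := BS2_of_models hSc hne hBS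
  obtain ⟨X, hX, hXV⟩ := exists_join (S := S) hne hcl p.fS V fun j _ => hV j
  have hXS : ({X} : Set (Set M)) ⊆ S := Set.singleton_subset_iff.2 hX
  obtain ⟨I, hXI, hIcl, hII, hIB, hRT⟩ := exists_ideal X (IS.mono hXS hIS) (BS2.mono hXS hB)
  have hI : I.Nonempty := ⟨X, hXI⟩
  have hXI' : ({X} : Set (Set M)) ⊆ I := Set.singleton_subset_iff.2 hXI
  have hm : Models (strOf M I hI) (RCA0 ∪ {RT22}) := by
    rintro q (hq | hq)
    · exact models_RCA0 hI hIcl q hq
    · rw [Set.mem_singleton_iff.1 hq]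
      exact valid_RT22 hI hRT
  have hval := prf_iff.1 h (strOf M I hI) hm
  have hV' : ∀ j, (if j < p.fS then V j else X) ∈ I := by
    intro j
    by_cases hj : j < p.fS
    · rw [if_pos hj]
      exact hIcl _ (Dp.mono hXI' (hXV j hj))
    · rw [if_neg hj]
      exact hXI
  refine hs ((Sat_arith hne hI hp V (fun j => if j < p.fS then V j else X) ?_ v).2
    (hval v _ hV'))
  intro j hj
  rw [if_pos hj]

/-- `RCA_0 + SRT^2_2` proves everything that `RCA_0 + BΣ^0_2` proves. -/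
theorem srt_proves {p : Fm} (h : Prf (RCA0 ∪ BSigma2) [] p) : Prf (RCA0 ∪ {SRT22}) [] p := by
  by_contra hn
  obtain ⟨A, hc, hSc, hA, v, V, hV, hs⟩ := complete hn
  have hR : Models A RCA0 := fun q hq => hA q (Or.inl hq)
  have hST : Valid A SRT22 := hA _ (Or.inr rfl)
  obtain ⟨i, hi⟩ := exists_PAm A hR
  have hBS : Models A (RCA0 ∪ BSigma2) := by
    rcases A with ⟨M, zero, one, add, mul, lt, S, hne⟩
    dsimp only at i hc hSc v V hV hi
    simp only [strOf, L2Str.mk.injEq, heq_eq_eq, true_and, and_true] at hi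
    obtain ⟨rfl, rfl, rfl, rfl, rfl⟩ := hi
    change Models (strOf M S hne) RCA0 at hR
    change Valid (strOf M S hne) SRT22 at hST
    change Models (strOf M S hne) (RCA0 ∪ BSigma2)
    have hIS : IS S := IS_of_models hSc hne hR
    have hISig : ISig M := ISig_of_models hSc hne hR
    have hcl := closed_of_models hSc hne hR
    have hB : BS2 S := srt_bs2 S fun c hc' hst => stable_of_SRT22 hne hcl hST c hc' hst
    rintro q (hq | hq)
    · exact hR q hq
    · exact models_BSigma2 hB hne q hq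
  exact hs (prf_iff.1 h A hBS v V hV)

theorem main_iff {p : Fm} (hp : Pi11 p) :
    (Prf (RCA0 ∪ {RT22}) [] p ↔ Prf (RCA0 ∪ BSigma2) [] p) ∧
      (Prf (RCA0 ∪ {SRT22}) [] p ↔ Prf (RCA0 ∪ BSigma2) [] p) := by
  obtain ⟨q, hq, hpq⟩ := hp.arith'
  have e : ∀ T : Set Fm, Prf T [] p ↔ Prf T [] q := fun T => by
    rw [prf_iff, prf_iff]
    exact forall_congr' fun A => imp_congr_right fun _ => hpq A
  have h1 : Prf (RCA0 ∪ {SRT22}) [] p → Prf (RCA0 ∪ {RT22}) [] p := by
    intro h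
    rw [prf_iff] at h ⊢
    intro A hA
    refine h A ?_
    rintro r (hr | hr)
    · exact hA r (Or.inl hr)
    · rw [Set.mem_singleton_iff.1 hr]
      exact valid_SRT22_of_RT22 A (hA _ (Or.inr rfl))
  have h2 : Prf (RCA0 ∪ {RT22}) [] p → Prf (RCA0 ∪ BSigma2) [] p := by
    rw [e, e]
    exact conserv hq
  have h3 : Prf (RCA0 ∪ BSigma2) [] p → Prf (RCA0 ∪ {SRT22}) [] p := srt_proves
  exact ⟨⟨h2, fun h => h1 (h3 h)⟩, ⟨fun h => h2 (h1 h), h3⟩⟩

end Pool.Agent.RT
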