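import Pool.Agent.Work.MP_dfab40_lc.R.Full

/-!
# Module `Ideal`: iteration of the extension step, the ideal of the final structure
-/

namespace Pool.Agent.Work.MP_dfab40_lc.R

namespace Idl

variable {M : Type} [PAm M] [ISig M]

/-- `X` is good: `IΣ_1(X)` and `BΣ_2(X)`. -/
def Good (X : Set M) : Prop := IS ({X} : Set (Set M)) ∧ BS2 ({X} : Set (Set M))

/-- `X` is `Δ_1` in `Y`. -/
def Le (X Y : Set M) : Prop := Dp ({Y} : Set (Set M)) (fun x : M => x ∈ X)

theorem le_refl (X : Set M) : Le X X := Dp.param rfl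

theorem dp_of_le {X Y : Set M} (hY : IS ({Y} : Set (Set M))) (h : Le X Y) {A : Type} [Cd M A]
    {P : A → Prop} (hP : Dp ({X} : Set (Set M)) P) : Dp ({Y} : Set (Set M)) P := by
  have := hY
  have hT : ∀ Z ∈ ({X} : Set (Set M)), Dp ({Y} : Set (Set M)) (fun x : M => x ∈ Z) := by
    rintro Z rfl
    exact h
  exact ⟨S1.trans hT hP.1, S1.trans hT hP.2⟩

/-- The solution of one instance below a single set. -/
def Sol (c : M → M → Prop) (Y : Set M) : Prop :=
  ∃ (j : Bool) (H : Set M), Le H Y ∧ (∀ a, ∃ x ∈ H, a ≤ x) ∧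
    ∀ x ∈ H, ∀ y ∈ H, x < y → (c x y ↔ j = true)

theorem step_join [Countable M] (X : Set M) (hX : Good X) (c : M → M → Prop)
    (hc : Dp ({X} : Set (Set M)) (fun p : M × M => c p.1 p.2)) :
    ∃ Y, Good Y ∧ Le X Y ∧ Sol c Y := by
  obtain ⟨j, H, hunb, hhom, hI, hB⟩ := full_step X hX.1 hX.2 c hc
  let Y : Set M := {z | (fs z = 0 ∧ sn z ∈ X) ∨ (fs z = 1 ∧ sn z ∈ H)}
  have hXm : X ∈ ({X, H} : Set (Set M)) := Or.inl rfl
  have hHm : H ∈ ({X, H} : Set (Set M)) := Or.inr rfl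
  have hY : Dp ({X, H} : Set (Set M)) (fun x : M => x ∈ Y) :=
    Dp.or
      (Dp.and (Dp.eq (Df.fs Df.id) (Df.const 0))
        (Dp.comp (P := fun x : M => x ∈ X) (Dp.param hXm) (Df.sn Df.id)))
      (Dp.and (Dp.eq (Df.fs Df.id) (Df.const 1))
        (Dp.comp (P := fun x : M => x ∈ H) (Dp.param hHm) (Df.sn Df.id)))
  have hT : ∀ Z ∈ ({Y} : Set (Set M)), Dp ({X, H} : Set (Set M)) (fun x : M => x ∈ Z) := by
    rintro Z rfl
    exact hY
  have h01 : (0 : M) ≠ 1 := zero_ne_one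
  have hYp : Dp ({Y} : Set (Set M)) (fun x : M => x ∈ Y) := Dp.param rfl
  have hXY : Le X Y :=
    Dp.congr (Dp.comp hYp (Df.pr (Df.const 0) Df.id)) (fun x => by
      simp only [Y, Set.mem_ofPred_eq, fs_pr, sn_pr, true_and, h01, false_and, or_false])
  have hHY : Le H Y :=
    Dp.congr (Dp.comp hYp (Df.pr (Df.const 1) Df.id)) (fun x => by
      simp only [Y, Set.mem_ofPred_eq, fs_pr, sn_pr, true_and, h01.symm, false_and, false_or])
  have := hI
  refine ⟨Y, ⟨⟨fun P hP => ?_⟩, fun R hR => ?_⟩, hXY, j, H, hHY, hunb, hhom⟩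
  · exact hI.ind P (S1.trans (A := M) hT hP)
  · exact hB R (S1.trans hT hR)

theorem step_some [Countable M] (X : {X : Set M // Good X}) (c : M → M → Prop) :
    ∃ Y : {X : Set M // Good X}, Le X.1 Y.1 ∧
      (Dp ({X.1} : Set (Set M)) (fun p : M × M => c p.1 p.2) → Sol c Y.1) := by
  by_cases hc : Dp ({X.1} : Set (Set M)) (fun p : M × M => c p.1 p.2)
  · obtain ⟨Y, hY, hXY, hs⟩ := step_join X.1 X.2 c hc
    exact ⟨⟨Y, hY⟩, hXY, fun _ => hs⟩
  · exact ⟨X, le_refl _, fun h => absurd h hc⟩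

/-- The colourings `Δ_1` in one set can be enumerated. -/
theorem exists_enum [Countable M] (X : Set M) : ∃ E : ℕ → (M → M → Prop), ∀ c : M → M → Prop,
    Dp ({X} : Set (Set M)) (fun p : M × M => c p.1 p.2) → ∃ k, E k = c := by
  classical
  have hcd : {f : M → M | Df ({X} : Set (Set M)) f}.Countable :=
    countable_Df (Set.countable_singleton X)
  have hne : {f : M → M | Df ({X} : Set (Set M)) f}.Nonempty := ⟨fun a => a, Df.id⟩
  obtain ⟨F, hF⟩ := hcd.exists_eq_range hne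
  refine ⟨fun k x y => F k (pr x y) = 1, fun c hc => ?_⟩
  have h1 : Df ({X} : Set (Set M)) (fun z : M => if c (fs z) (sn z) then (1 : M) else 0) :=
    Df.ite (P := fun z : M => c (fs z) (sn z))
      (Dp.comp (P := fun p : M × M => c p.1 p.2) (f := fun z : M => (fs z, sn z)) hc
        (Df.pair (Df.fs Df.id) (Df.sn Df.id))) (Df.const 1) (Df.const 0)
  have h2 : (fun z : M => if c (fs z) (sn z) then (1 : M) else 0) ∈ Set.range F := by
    rw [← hF]; exact h1
  obtain ⟨k, hk⟩ := h2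
  refine ⟨k, ?_⟩
  funext x y
  show (F k (pr x y) = 1) = c x y
  rw [hk]
  by_cases h : c x y <;> simp [h]

section Seq

variable [Countable M]

/-- The next good set. -/
noncomputable def nx (X : {X : Set M // Good X}) (c : M → M → Prop) : {X : Set M // Good X} :=
  (step_some X c).choose

theorem nx_spec (X : {X : Set M // Good X}) (c : M → M → Prop) : Le X.1 (nx X c).1 ∧
      (Dp ({X.1} : Set (Set M)) (fun p : M × M => c p.1 p.2) → Sol c (nx X c).1) :=
  (step_some X c).choose_spec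

/-- A fixed enumeration. -/
noncomputable def en (X : Set M) : ℕ → (M → M → Prop) := (exists_enum X).choose

theorem en_spec (X : Set M) (c : M → M → Prop)
    (hc : Dp ({X} : Set (Set M)) (fun p : M × M => c p.1 p.2)) : ∃ k, en X k = c :=
  (exists_enum X).choose_spec c hc

/-- The states of the construction: a good set, and the enumerations of the earlier stages. -/
noncomputable def st (X : {X : Set M // Good X}) :
    ℕ → {X : Set M // Good X} × (ℕ → ℕ → (M → M → Prop))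
  | 0 => (X, fun _ => en X.1)
  | n + 1 =>
    let s := st X n
    let Y := nx s.1 (s.2 (Nat.unpair n).1 (Nat.unpair n).2)
    (Y, fun i => if i = n + 1 then en Y.1 else s.2 i)

theorem st_en (X : {X : Set M // Good X}) (m n : ℕ) (h : n ≤ m) :
    (st X m).2 n = en (st X n).1.1 := by
  induction m with
  | zero => obtain rfl : n = 0 := by omega
            rfl
  | succ m ih =>
    by_cases h' : n = m + 1
    · subst h'
      simp [st]
    · rw [← ih (by omega)]
      simp [st, h']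

theorem st_succ (X : {X : Set M // Good X}) (n : ℕ) : Le (st X n).1.1 (st X (n + 1)).1.1 :=
  (nx_spec _ _).1

theorem st_le (X : {X : Set M // Good X}) (m n : ℕ) (h : n ≤ m) :
    Le (st X n).1.1 (st X m).1.1 := by
  induction m, h using Nat.le_induction with
  | base => exact le_refl _
  | succ m _ ih => exact dp_of_le (st X (m + 1)).1.2.1 (st_succ X m) ih

theorem st_sol (X : {X : Set M // Good X}) (i : ℕ) (c : M → M → Prop)
    (hc : Dp ({(st X i).1.1} : Set (Set M)) (fun p : M × M => c p.1 p.2)) :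
    ∃ n, Sol c (st X n).1.1 := by
  obtain ⟨k, hk⟩ := en_spec _ c hc
  have hi : i ≤ Nat.pair i k := Nat.left_le_pair i k
  have h1 : (st X (Nat.pair i k)).2 i k = c := by rw [st_en X _ i hi, hk]
  have h2 := (nx_spec (st X (Nat.pair i k)).1 c).2
    (dp_of_le (st X _).1.2.1 (st_le X _ i hi) hc)
  refine ⟨Nat.pair i k + 1, ?_⟩
  simp only [st, Nat.unpair_pair]
  rw [h1]
  exact h2

end Seq

/-- Monotone unions: finitely many set parameters. -/
theorem D0_union {S : ℕ → Set (Set M)} (hS : ∀ m n, m ≤ n → S m ⊆ S n) {A : Type}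
    {C : Set (A → M)} {R : A → Prop} (h : D0 (⋃ n, S n) A C R) : ∃ n, D0 (S n) A C R := by
  induction h with
  | lt hf hg => exact ⟨0, D0.lt hf hg⟩
  | mem hX hf =>
    obtain ⟨n, hn⟩ := Set.mem_iUnion.1 hX
    exact ⟨n, D0.mem hn hf⟩
  | not _ ih =>
    obtain ⟨n, hn⟩ := ih
    exact ⟨n, D0.not hn⟩
  | and _ _ ih1 ih2 =>
    obtain ⟨n, hn⟩ := ih1
    obtain ⟨m, hm⟩ := ih2
    exact ⟨max n m, D0.and (D0.mono (hS _ _ (le_max_left _ _)) hn)
      (D0.mono (hS _ _ (le_max_right _ _)) hm)⟩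
  | bex hf _ ih =>
    obtain ⟨n, hn⟩ := ih
    exact ⟨n, D0.bex hf hn⟩

theorem S1_union {S : ℕ → Set (Set M)} (hS : ∀ m n, m ≤ n → S m ⊆ S n) {A : Type} [Cd M A]
    {P : A → Prop} (h : S1 (⋃ n, S n) P) : ∃ n, S1 (S n) P := by
  obtain ⟨R, hR, h⟩ := h
  obtain ⟨n, hn⟩ := D0_union hS hR
  exact ⟨n, R, hn, h⟩

end Idl

variable {M : Type} [PAm M] [ISig M]

open Idl in
/-- Every countable model of `IΣ_1(X) + BΣ_2(X)` is contained in a model of `RCA_0 + BΣ_2 + RT^2_2`
with the same first order part. -/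
theorem exists_ideal [Countable M] (X : Set M) (hX : IS ({X} : Set (Set M)))
    (hB : BS2 ({X} : Set (Set M))) :
    ∃ I : Set (Set M), X ∈ I ∧ (∀ P : M → Prop, Dp I P → {x | P x} ∈ I) ∧ IS I ∧ BS2 I ∧
      ∀ c : M → M → Prop, Dp I (fun p : M × M => c p.1 p.2) →
        ∃ (j : Bool) (H : Set M), H ∈ I ∧ (∀ a, ∃ x ∈ H, a ≤ x) ∧
          ∀ x ∈ H, ∀ y ∈ H, x < y → (c x y ↔ j = true) := by
  let X0 : {X : Set M // Idl.Good X} := ⟨X, hX, hB⟩
  let S : ℕ → Set (Set M) := fun n => {Z | Le Z (st X0 n).1.1}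
  have hS : ∀ m n, m ≤ n → S m ⊆ S n := fun m n h Z hZ =>
    dp_of_le (st X0 n).1.2.1 (st_le X0 n m h) hZ
  have key : ∀ {A : Type} [Cd M A] {P : A → Prop} (n : ℕ), S1 (S n) P →
      S1 ({(st X0 n).1.1} : Set (Set M)) P := by
    intro A _ P n h
    have := (st X0 n).1.2.1
    exact S1.trans (fun Z hZ => hZ) h
  have hDp : ∀ {A : Type} [Cd M A] {P : A → Prop}, Dp (⋃ n, S n) P →
      ∃ n, Dp ({(st X0 n).1.1} : Set (Set M)) P := by
    intro A _ P h
    obtain ⟨n, hn⟩ := S1_union hS h.1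
    obtain ⟨m, hm⟩ := S1_union hS h.2
    exact ⟨max n m, key _ (S1.mono (hS _ _ (le_max_left _ _)) hn),
      key _ (S1.mono (hS _ _ (le_max_right _ _)) hm)⟩
  refine ⟨⋃ n, S n, Set.mem_iUnion.2 ⟨0, le_refl X⟩, fun P hP => ?_, ⟨fun P hP => ?_⟩,
    fun R hR => ?_, fun c hc => ?_⟩
  · obtain ⟨n, hn⟩ := hDp hP
    exact Set.mem_iUnion.2 ⟨n, hn⟩
  · obtain ⟨n, hn⟩ := S1_union (A := M) hS hP
    exact (st X0 n).1.2.1.ind P (key (A := M) n hn)
  · obtain ⟨n, hn⟩ := S1_union hS hR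
    exact (st X0 n).1.2.2 R (key n hn)
  · obtain ⟨n, hn⟩ := hDp hc
    obtain ⟨m, j, H, hH, hunb, hhom⟩ := st_sol X0 n c hn
    exact ⟨j, H, Set.mem_iUnion.2 ⟨m, hH⟩, hunb, hhom⟩

end Pool.Agent.Work.MP_dfab40_lc.R
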