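import Pool.Agent.Work.MP_dfab40_lc.R.ApiA

/-!
# Normal form of `Σ_1` relations: see `S1.nf` in `ApiA`.
-/
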