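import Pool.Agent.Work.MP_dfab40_lc.R.F.Nf

/-!
# A failure of `BΣ_2` gives a partition of `M` into `b` bounded classes (block F2b)

`e x n` = the least `y` such that `¬ R x y` has no witness below `n` (or `y = n`); it is monotone in
`n`, bounded for every `x < b`, but `max_{x<b} e x n` is unbounded.  `g n` = the least `x < b` with
`e x n` maximal.
-/

namespace Pool.Agent.Work.MP_dfab40_lc.R

variable {M : Type} [PAm M] [ISig M] {S : Set (Set M)}

theorem exists_slow [IS S] {R : M → M → Prop} (hR : S1 S (fun p : M × M => ¬ R p.1 p.2)) {b : M}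
    (h1 : ∀ x, x < b → ∃ y, R x y) (h2 : ∀ B, ∃ x, x < b ∧ ∀ y, y < B → ¬ R x y) :
    ∃ g : M → M, Df S g ∧ (∀ n, g n < b) ∧ ∀ v, ∃ m, ∀ n, m ≤ n → g n ≠ v := by
  obtain ⟨Q, hQ, hRQ⟩ := S1.nf hR
  have hQ' : ∀ x y, ¬ R x y ↔ ∃ w, Q (x, y) w := fun x y => hRQ (x, y)
  have hP : Dp S (fun p : (M × M) × M => p.2 = p.1.2 ∨ ∀ w, w < p.1.2 → ¬ Q (p.1.1, p.2) w) := by
    refine Dp.or (Dp.eq (Df.snd Df.id) (Df.snd (Df.fst Df.id))) ?_
    refine Dp.ball (Df.snd (Df.fst Df.id)) ?_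
    refine Dp.not ?_
    exact Dp.comp hQ (Df.pair (Df.pair (Df.fst (Df.fst (Df.fst Df.id))) (Df.snd (Df.fst Df.id)))
      (Df.snd Df.id))
  let e : M → M → M := fun x n => mu (fun y => y = n ∨ ∀ w, w < n → ¬ Q (x, y) w)
  have he : Df S (fun p : M × M => e p.1 p.2) :=
    Df.mu (A := M × M) (P := fun p y => y = p.2 ∨ ∀ w, w < p.2 → ¬ Q (p.1, y) w) hP
      fun p => ⟨p.2, Or.inl rfl⟩
  have hPx : ∀ x n : M, Dp S (fun y : M => y = n ∨ ∀ w, w < n → ¬ Q (x, y) w) := fun x n =>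
    Dp.comp hP (Df.pair (Df.const (x, n)) Df.id)
  have es : ∀ x n, e x n = n ∨ ∀ w, w < n → ¬ Q (x, e x n) w := fun x n =>
    mu_spec (hPx x n) ⟨n, Or.inl rfl⟩
  have el : ∀ x n y, (y = n ∨ ∀ w, w < n → ¬ Q (x, y) w) → e x n ≤ y := fun x n y hy =>
    mu_le (hPx x n) hy
  have e_le : ∀ x n, e x n ≤ n := fun x n => el x n n (Or.inl rfl)
  have e_bd : ∀ x n y, R x y → e x n ≤ y := by
    intro x n y hy
    refine el x n y (Or.inr fun w _ hw => ?_)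
    exact (hQ' x y).2 ⟨w, hw⟩ hy
  have e_un : ∀ x B, (∀ y, y < B → ¬ R x y) → ∃ m, ∀ n, m ≤ n → B ≤ e x n := by
    intro x B hB
    obtain ⟨c, hc⟩ := coll_S1 (R := fun y w => Q (x, y) w)
      (Dp.comp hQ (Df.pair (Df.pair (Df.const x) (Df.fst Df.id)) (Df.snd Df.id))).1 B
      (fun y hy => (hQ' x y).1 (hB y hy))
    refine ⟨c + B, fun n hn => ?_⟩
    by_contra hlt
    rw [not_le] at hlt
    have hBn : B ≤ n := le_trans le_add_self hn
    rcases es x n with h3 | h3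
    · exact absurd (lt_of_lt_of_le hlt hBn) (by rw [h3]; exact lt_irrefl n)
    · obtain ⟨w, hw, hw'⟩ := hc _ hlt
      exact h3 w (lt_of_lt_of_le hw (le_trans le_self_add hn)) hw'
  have hb : 0 < b := by
    obtain ⟨x, hx, -⟩ := h2 0
    exact lt_of_le_of_lt zero_le hx
  have hG : Dp S (fun p : M × M => p.2 < b ∧ ∀ x', x' < b → e x' p.1 ≤ e p.2 p.1) := by
    refine Dp.and (Dp.lt (Df.snd Df.id) (Df.const b)) (Dp.ball (Df.const b) ?_)
    refine Dp.le (Df.comp he (Df.pair (Df.snd Df.id) (Df.fst (Df.fst Df.id))))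
      (Df.comp he (Df.pair (Df.snd (Df.fst Df.id)) (Df.fst (Df.fst Df.id))))
  have hex : ∀ n, ∃ x, x < b ∧ ∀ x', x' < b → e x' n ≤ e x n := by
    intro n
    have hS : S1 S (fun z : M => ∃ x, x < b ∧ e x n = z) := by
      refine (Dp.bex (Df.const b) ?_).1
      exact Dp.eq (Df.comp he (Df.pair (Df.snd Df.id) (Df.const n))) (Df.fst Df.id)
    obtain ⟨z, ⟨x, hx, hxz⟩, hz⟩ := greatest_S1 hS (n + 1)
      (by
        rintro z ⟨x, -, rfl⟩
        exact lt_succ_iff.2 (e_le x n))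
      ⟨e 0 n, 0, hb, rfl⟩
    refine ⟨x, hx, fun x' hx' => ?_⟩
    by_contra hlt
    rw [not_le, hxz] at hlt
    exact hz _ hlt ⟨x', hx', rfl⟩
  let g : M → M := fun n => mu (fun x => x < b ∧ ∀ x', x' < b → e x' n ≤ e x n)
  have hg : Df S g :=
    Df.mu (A := M) (P := fun n x => x < b ∧ ∀ x', x' < b → e x' n ≤ e x n) hG hex
  have gs : ∀ n, g n < b ∧ ∀ x', x' < b → e x' n ≤ e (g n) n := fun n =>
    mu_spec (Dp.comp hG (Df.pair (Df.const n) Df.id)) (hex n)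
  refine ⟨g, hg, fun n => (gs n).1, fun v => ?_⟩
  by_cases hv : v < b
  · obtain ⟨y, hy⟩ := h1 v hv
    obtain ⟨x, hx, hxy⟩ := h2 (y + 1)
    obtain ⟨m, hm⟩ := e_un x (y + 1) hxy
    refine ⟨m, fun n hn hgn => ?_⟩
    have h3 := (gs n).2 x hx
    rw [hgn] at h3
    have h4 := e_bd v n y hy
    exact absurd (lt_of_lt_of_le (lt_succ_iff.2 le_rfl) (le_trans (hm n hn) (le_trans h3 h4)))
      (lt_irrefl y)
  · exact ⟨0, fun n _ hgn => hv (hgn ▸ (gs n).1)⟩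

end Pool.Agent.Work.MP_dfab40_lc.R
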