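import Pool.Agent.Work.MP_dfab40_lc.R.F.Thy
import Pool.Agent.Work.MP_dc6514_lc.R.GSat
import Pool.Agent.Work.MP_dc6514_lc.R.GFree
import Pool.Agent.Work.MP_dfab40_lc.R.ApiA

/-!
# The structure `strOf M S`, simp lemmas for satisfaction, readable forms of the axioms

Everything here is proved.
-/

namespace Pool.Agent.Work.MP_dfab40_lc.R

open Pool.Agent.RT

section Logic

variable (A : L2Str) (v : ℕ → A.M) (V : ℕ → Set A.M)

@[simp] theorem sat_eq (s t : Tm) : Sat A v V (.eq s t) ↔ s.val A v = t.val A v := Iff.rfl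

@[simp] theorem sat_lt (s t : Tm) : Sat A v V (.lt s t) ↔ A.lt (s.val A v) (t.val A v) := Iff.rfl

@[simp] theorem sat_mem (t : Tm) (X : ℕ) : Sat A v V (.mem t X) ↔ t.val A v ∈ V X := Iff.rfl

@[simp] theorem sat_bot : Sat A v V .bot ↔ False := Iff.rfl

@[simp] theorem sat_imp (p q : Fm) : Sat A v V (.imp p q) ↔ (Sat A v V p → Sat A v V q) := Iff.rfl

@[simp] theorem sat_allN (p : Fm) : Sat A v V (.allN p) ↔ ∀ a, Sat A (cons a v) V p := Iff.rfl

@[simp] theorem sat_allS (p : Fm) : Sat A v V (.allS p) ↔ ∀ X ∈ A.S, Sat A v (cons X V) p := Iff.rfl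

@[simp] theorem sat_neg (p : Fm) : Sat A v V p.neg ↔ ¬ Sat A v V p := Iff.rfl

@[simp] theorem sat_and (p q : Fm) : Sat A v V (p.and q) ↔ Sat A v V p ∧ Sat A v V q := by
  simp only [Fm.and, sat_neg, sat_imp]; tauto

@[simp] theorem sat_or (p q : Fm) : Sat A v V (p.or q) ↔ Sat A v V p ∨ Sat A v V q := by
  simp only [Fm.or, sat_neg, sat_imp]; tauto

@[simp] theorem sat_iff (p q : Fm) : Sat A v V (p.iff q) ↔ (Sat A v V p ↔ Sat A v V q) := by
  simp only [Fm.iff, sat_and, sat_imp]; tauto

@[simp] theorem sat_exN (p : Fm) : Sat A v V p.exN ↔ ∃ a, Sat A (cons a v) V p := by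
  simp only [Fm.exN, sat_neg, sat_allN]; push Not; rfl

@[simp] theorem sat_exS (p : Fm) : Sat A v V p.exS ↔ ∃ X ∈ A.S, Sat A v (cons X V) p := by
  simp only [Fm.exS, sat_neg, sat_allS]; push Not; rfl

@[simp] theorem cons_zero {α : Type*} (a : α) (w : ℕ → α) : cons a w 0 = a := rfl

@[simp] theorem cons_succ {α : Type*} (a : α) (w : ℕ → α) (i : ℕ) : cons a w (i + 1) = w i := rfl

@[simp] theorem cons_one {α : Type*} (a : α) (w : ℕ → α) : cons a w 1 = w 0 := rfl

@[simp] theorem cons_two {α : Type*} (a : α) (w : ℕ → α) : cons a w 2 = w 1 := rfl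

@[simp] theorem cons_three {α : Type*} (a : α) (w : ℕ → α) : cons a w 3 = w 2 := rfl

/-- Meaning of the bound of a bounded quantifier. -/
@[simp] theorem val_shift (t : Tm) (a : A.M) :
    (t.sub fun i => va (i + 1)).val A (cons a v) = t.val A v := by
  rw [Tm.val_sub]; rfl

/-- Meaning of the induction axiom. -/
theorem sat_indAx (p : Fm) : Sat A v V (indAx p) ↔ (Sat A (cons A.zero v) V p →
    (∀ n, Sat A (cons n v) V p → Sat A (cons (A.add n A.one) v) V p) →
    ∀ n, Sat A (cons n v) V p) := by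
  have h : ∀ n : A.M, Sat A (cons n v) V (p.sub (cons (.add (va 0) .one) fun i => va (i + 1)) id) ↔
      Sat A (cons (A.add n A.one) v) V p := by
    intro n
    rw [Sat_sub]
    have : (fun i => (cons (.add (va 0) .one) (fun i => va (i + 1)) i : Tm).val A (cons n v)) =
        cons (A.add n A.one) v := by
      funext i; cases i <;> rfl
    rw [this]; rfl
  simp only [indAx, sat_imp, sat_allN, Sat_instN, h]
  rfl

/-- Meaning of the comprehension axiom. -/
theorem sat_compAx (p q : Fm) : Sat A v V (compAx p q) ↔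
    ((∀ n, Sat A (cons n v) V p ↔ Sat A (cons n v) V q) →
      ∃ X ∈ A.S, ∀ n, n ∈ X ↔ Sat A (cons n v) V p) := by
  simp only [compAx, sat_imp, sat_allN, sat_iff, sat_exS, sat_mem, Sat_shS, cons_zero]
  rfl

/-- Meaning of the bounding axiom. -/
theorem sat_bndAx (p : Fm) : Sat A v V (bndAx p) ↔
    ∀ a, (∀ i, A.lt i a → ∃ y, Sat A (cons y (cons i v)) V p) →
      ∃ b, ∀ i, A.lt i a → ∃ y, A.lt y b ∧ Sat A (cons y (cons i v)) V p := by
  have h1 : ∀ a i y : A.M, Sat A (cons y (cons i (cons a v))) V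
      (p.sub (cons (va 0) (cons (va 1) fun k => va (k + 3))) id) ↔
      Sat A (cons y (cons i v)) V p := by
    intro a i y
    rw [Sat_sub]
    have : (fun k => (cons (va 0) (cons (va 1) fun k => va (k + 3)) k : Tm).val A
        (cons y (cons i (cons a v)))) = cons y (cons i v) := by
      funext k
      rcases k with _ | _ | k <;> rfl
    rw [this]; rfl
  have h2 : ∀ a b i y : A.M, Sat A (cons y (cons i (cons b (cons a v)))) V
      (p.sub (cons (va 0) (cons (va 1) fun k => va (k + 4))) id) ↔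
      Sat A (cons y (cons i v)) V p := by
    intro a b i y
    rw [Sat_sub]
    have : (fun k => (cons (va 0) (cons (va 1) fun k => va (k + 4)) k : Tm).val A
        (cons y (cons i (cons b (cons a v))))) = cons y (cons i v) := by
      funext k
      rcases k with _ | _ | k <;> rfl
    rw [this]; rfl
  simp only [bndAx, sat_imp, sat_allN, sat_exN, sat_and, sat_lt, h1, h2]
  rfl

end Logic

/-- The structure with the numbers `M` and the sets `S`. -/
def strOf (M : Type) [PAm M] (S : Set (Set M)) (h : S.Nonempty) : L2Str where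
  M := M
  zero := 0
  one := 1
  add := fun x y => x + y
  mul := fun x y => x * y
  lt := fun x y => x < y
  S := S
  ne := h

section Str

variable {M : Type} [PAm M] {S : Set (Set M)} (h : S.Nonempty)

theorem strOf_M : (strOf M S h).M = M := rfl

@[simp] theorem strOf_S : (strOf M S h).S = S := rfl

@[simp] theorem strOf_lt (x y : M) : (strOf M S h).lt x y ↔ x < y := Iff.rfl

@[simp] theorem strOf_add (x y : M) : (strOf M S h).add x y = x + y := rfl

@[simp] theorem strOf_mul (x y : M) : (strOf M S h).mul x y = x * y := rfl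

@[simp] theorem strOf_zero : (strOf M S h).zero = (0 : M) := rfl

@[simp] theorem strOf_one : (strOf M S h).one = (1 : M) := rfl

variable (v : ℕ → M)

@[simp] theorem val_va (A : L2Str) (v : ℕ → A.M) (i : ℕ) : (Tm.var i).val A v = v i := rfl

@[simp] theorem val_zero (A : L2Str) (v : ℕ → A.M) : Tm.zero.val A v = A.zero := rfl

@[simp] theorem val_one (A : L2Str) (v : ℕ → A.M) : Tm.one.val A v = A.one := rfl

@[simp] theorem val_add (A : L2Str) (v : ℕ → A.M) (s t : Tm) :
    (Tm.add s t).val A v = A.add (s.val A v) (t.val A v) := rfl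

@[simp] theorem val_mul (A : L2Str) (v : ℕ → A.M) (s t : Tm) :
    (Tm.mul s t).val A v = A.mul (s.val A v) (t.val A v) := rfl

/-- Meaning of `RT^2_2` in `strOf M S`. -/
theorem valid_RT22_iff : Valid (strOf M S h) RT22 ↔ ∀ C ∈ S, ∃ H ∈ S,
    (∀ a : M, ∃ x, a < x ∧ x ∈ H) ∧
    ((∀ x y : M, x < y → x ∈ H → y ∈ H → (x + y) * (x + y) + x ∈ C) ∨
     (∀ x y : M, x < y → x ∈ H → y ∈ H → (x + y) * (x + y) + x ∉ C)) := by
  constructor
  · intro hv
    obtain ⟨X, hX⟩ := h
    have := hv (fun _ => (0 : M)) (fun _ => X) (fun _ => hX)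
    simp only [RT22, infinite, homog1, homog0, code, sat_allS, sat_exS, sat_and, sat_or, sat_neg,
      sat_allN, sat_exN, sat_imp, sat_mem, sat_lt, val_add, val_mul, val_va, cons_zero,
      cons_one] at this
    exact this
  · intro hv w W _
    simp only [RT22, infinite, homog1, homog0, code, sat_allS, sat_exS, sat_and, sat_or, sat_neg,
      sat_allN, sat_exN, sat_imp, sat_mem, sat_lt, val_add, val_mul, val_va, cons_zero,
      cons_one]
    exact hv

/-- Meaning of `SRT^2_2` in `strOf M S`. -/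
theorem valid_SRT22_iff : Valid (strOf M S h) SRT22 ↔ ∀ C ∈ S,
    (∀ x : M, ∃ n : M, (∀ y, x < y → n < y → (x + y) * (x + y) + x ∈ C) ∨
      (∀ y, x < y → n < y → (x + y) * (x + y) + x ∉ C)) → ∃ H ∈ S,
    (∀ a : M, ∃ x, a < x ∧ x ∈ H) ∧
    ((∀ x y : M, x < y → x ∈ H → y ∈ H → (x + y) * (x + y) + x ∈ C) ∨
     (∀ x y : M, x < y → x ∈ H → y ∈ H → (x + y) * (x + y) + x ∉ C)) := by
  constructor
  · intro hv
    obtain ⟨X, hX⟩ := h
    have := hv (fun _ => (0 : M)) (fun _ => X) (fun _ => hX)
    simp only [SRT22, stable, infinite, homog1, homog0, code, sat_allS, sat_exS, sat_and, sat_or,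
      sat_neg, sat_allN, sat_exN, sat_imp, sat_mem, sat_lt, val_add, val_mul, val_va, cons_zero,
      cons_one, cons_two] at this
    exact this
  · intro hv w W _
    simp only [SRT22, stable, infinite, homog1, homog0, code, sat_allS, sat_exS, sat_and, sat_or,
      sat_neg, sat_allN, sat_exN, sat_imp, sat_mem, sat_lt, val_add, val_mul, val_va, cons_zero,
      cons_one, cons_two]
    exact hv

end Str

end Pool.Agent.Work.MP_dfab40_lc.R
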