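import Pool.Agent.Work.MP_dc6514_lc.R.Syn

/-!
# The theories: `RCA_0`, `BΣ^0_2`, `RT^2_2`, `SRT^2_2` as sets of formulas of `L_2`

Variables are de Bruijn indices (see `Syn`).  Axioms may contain free variables (parameters); they
are understood as universally closed.
-/

namespace Pool.Agent.RT

/-- The number variable `x_i`. -/
abbrev va (i : ℕ) : Tm := .var i

/-! ### The basic axioms (Simpson, Subsystems of second order arithmetic, Definition I.2.4 (i)) -/

/-- The eight basic axioms, in the variables `m = x_0`, `n = x_1`. -/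
inductive Basic : Fm → Prop
  /-- `n + 1 ≠ 0` -/
  | succ_ne_zero : Basic (Fm.neg (.eq (.add (va 1) .one) .zero))
  /-- `m + 1 = n + 1 → m = n` -/
  | succ_inj : Basic (.imp (.eq (.add (va 0) .one) (.add (va 1) .one)) (.eq (va 0) (va 1)))
  /-- `m + 0 = m` -/
  | add_zero : Basic (.eq (.add (va 0) .zero) (va 0))
  /-- `m + (n + 1) = (m + n) + 1` -/
  | add_succ : Basic (.eq (.add (va 0) (.add (va 1) .one)) (.add (.add (va 0) (va 1)) .one))
  /-- `m * 0 = 0` -/
  | mul_zero : Basic (.eq (.mul (va 0) .zero) .zero)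
  /-- `m * (n + 1) = m * n + m` -/
  | mul_succ : Basic (.eq (.mul (va 0) (.add (va 1) .one)) (.add (.mul (va 0) (va 1)) (va 0)))
  /-- `¬ m < 0` -/
  | not_lt_zero : Basic (Fm.neg (.lt (va 0) .zero))
  /-- `m < n + 1 ↔ (m < n ∨ m = n)` -/
  | lt_succ : Basic (Fm.iff (.lt (va 0) (.add (va 1) .one))
      (Fm.or (.lt (va 0) (va 1)) (.eq (va 0) (va 1))))

/-! ### Classes of formulas -/

/-- Bounded (`Δ^0_0`) formulas: no set quantifiers, all number quantifiers are bounded,
`∀ x < t` or `∃ x < t`, where the term `t` does not contain `x` (in de Bruijn notation the bound is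
`t` with all variables shifted). -/
inductive Bdd : Fm → Prop
  | eq (s t : Tm) : Bdd (.eq s t)
  | lt (s t : Tm) : Bdd (.lt s t)
  | mem (t : Tm) (X : ℕ) : Bdd (.mem t X)
  | bot : Bdd .bot
  | imp {p q : Fm} : Bdd p → Bdd q → Bdd (.imp p q)
  | ball (t : Tm) {p : Fm} : Bdd p → Bdd (.allN (.imp (.lt (va 0) (t.sub fun i => va (i + 1))) p))
  | bex (t : Tm) {p : Fm} : Bdd p → Bdd (Fm.exN (Fm.and (.lt (va 0) (t.sub fun i => va (i + 1))) p))

/-- `Σ^0_1` formulas: `∃ x θ`, `θ` bounded. -/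
def Sigma01 (p : Fm) : Prop := ∃ q, Bdd q ∧ p = Fm.exN q

/-- `Π^0_1` formulas: `∀ x θ`, `θ` bounded. -/
def Pi01 (p : Fm) : Prop := ∃ q, Bdd q ∧ p = .allN q

/-- `Σ^0_2` formulas: `∃ x ∀ y θ`, `θ` bounded. -/
def Sigma02 (p : Fm) : Prop := ∃ q, Bdd q ∧ p = Fm.exN (.allN q)

/-- Arithmetical formulas: no set quantifiers (free set variables are allowed). -/
inductive Arith : Fm → Prop
  | eq (s t : Tm) : Arith (.eq s t)
  | lt (s t : Tm) : Arith (.lt s t)
  | mem (t : Tm) (X : ℕ) : Arith (.mem t X)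
  | bot : Arith .bot
  | imp {p q : Fm} : Arith p → Arith q → Arith (.imp p q)
  | allN {p : Fm} : Arith p → Arith (.allN p)

/-- First order formulas: neither set quantifiers nor set variables. -/
inductive FirstOrder : Fm → Prop
  | eq (s t : Tm) : FirstOrder (.eq s t)
  | lt (s t : Tm) : FirstOrder (.lt s t)
  | bot : FirstOrder .bot
  | imp {p q : Fm} : FirstOrder p → FirstOrder q → FirstOrder (.imp p q)
  | allN {p : Fm} : FirstOrder p → FirstOrder (.allN p)

/-- `Π^1_1` formulas: `∀ X_1 … ∀ X_k θ`, `θ` arithmetical (`k = 0` is allowed). -/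
inductive Pi11 : Fm → Prop
  | arith {p : Fm} : Arith p → Pi11 p
  | allS {p : Fm} : Pi11 p → Pi11 (.allS p)

/-! ### The schemes -/

/-- The induction axiom `φ(0) → (∀ n (φ(n) → φ(n + 1)) → ∀ n φ(n))`; `n` is the variable `x_0` of
`φ`, the other variables are parameters. -/
def indAx (p : Fm) : Fm :=
  .imp (p.instN .zero)
    (.imp (.allN (.imp p (p.sub (cons (.add (va 0) .one) fun i => va (i + 1)) id))) (.allN p))

/-- The comprehension axiom `∀ n (φ(n) ↔ ψ(n)) → ∃ X ∀ n (n ∈ X ↔ φ(n))`; `n` is the variable `x_0`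
of `φ` and `ψ`, and `X` does not occur in `φ` (the set variables of `φ` are shifted). -/
def compAx (p q : Fm) : Fm :=
  .imp (.allN (Fm.iff p q)) (Fm.exS (.allN (Fm.iff (.mem (va 0) 0) p.shS)))

/-- The bounding axiom `∀ a [∀ i < a ∃ y φ(i, y) → ∃ b ∀ i < a ∃ y < b φ(i, y)]`; `y` is the variable
`x_0` and `i` the variable `x_1` of `φ`, the other variables are parameters.  In the first occurrence
of `φ` one more variable (`a`), in the second two more variables (`b`, `a`) stand between `i` and the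
parameters. -/
def bndAx (p : Fm) : Fm :=
  .allN (.imp
    (.allN (.imp (.lt (va 0) (va 1))
      (Fm.exN (p.sub (cons (va 0) (cons (va 1) fun k => va (k + 3))) id))))
    (Fm.exN (.allN (.imp (.lt (va 0) (va 2))
      (Fm.exN (Fm.and (.lt (va 0) (va 2))
        (p.sub (cons (va 0) (cons (va 1) fun k => va (k + 4))) id)))))))

/-! ### Ramsey's theorem -/

/-- Simpson's code `(s + t)^2 + s` of the pair `(s, t)`. -/
def code (s t : Tm) : Tm := .add (.mul (.add s t) (.add s t)) s

/-- `H` is infinite: `∀ a ∃ x (a < x ∧ x ∈ H)`. -/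
def infinite (H : ℕ) : Fm := .allN (Fm.exN (Fm.and (.lt (va 1) (va 0)) (.mem (va 0) H)))

/-- A colouring `c : [ℕ]^2 → 2` is given by a set `C`: for `x < y` the colour of `{x, y}` is 1 if
`code x y ∈ C` and 0 otherwise.  All pairs of elements of `H` have colour 1:
`∀ x ∀ y (x < y → x ∈ H → y ∈ H → code x y ∈ C)`. -/
def homog1 (H C : ℕ) : Fm :=
  .allN (.allN (.imp (.lt (va 1) (va 0)) (.imp (.mem (va 1) H) (.imp (.mem (va 0) H)
    (.mem (code (va 1) (va 0)) C)))))

/-- All pairs of elements of `H` have colour 0. -/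
def homog0 (H C : ℕ) : Fm :=
  .allN (.allN (.imp (.lt (va 1) (va 0)) (.imp (.mem (va 1) H) (.imp (.mem (va 0) H)
    (Fm.neg (.mem (code (va 1) (va 0)) C))))))

/-- The colouring `C` is stable: for every `x` there is `n` such that either all pairs `{x, y}` with
`x < y`, `n < y` have colour 1 or all have colour 0. -/
def stable (C : ℕ) : Fm :=
  .allN (Fm.exN (Fm.or
    (.allN (.imp (.lt (va 2) (va 0)) (.imp (.lt (va 1) (va 0)) (.mem (code (va 2) (va 0)) C))))
    (.allN (.imp (.lt (va 2) (va 0)) (.imp (.lt (va 1) (va 0))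
      (Fm.neg (.mem (code (va 2) (va 0)) C)))))))

/-- `RT^2_2`: `∀ C ∃ H (H infinite and homogeneous for C)`. -/
def RT22 : Fm := .allS (Fm.exS (Fm.and (infinite 0) (Fm.or (homog1 0 1) (homog0 0 1))))

/-- `SRT^2_2`: `∀ C (C stable → ∃ H (H infinite and homogeneous for C))`. -/
def SRT22 : Fm :=
  .allS (.imp (stable 0) (Fm.exS (Fm.and (infinite 0) (Fm.or (homog1 0 1) (homog0 0 1)))))

/-! ### The theories -/

/-- `RCA_0`: basic axioms, `Σ^0_1` induction, `Δ^0_1` comprehension. -/
def RCA0 : Set Fm :=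
  {p | Basic p} ∪ {p | ∃ q, Sigma01 q ∧ p = indAx q} ∪
    {p | ∃ q r, Sigma01 q ∧ Pi01 r ∧ p = compAx q r}

/-- The scheme `BΣ^0_2`. -/
def BSigma2 : Set Fm := {p | ∃ q, Sigma02 q ∧ p = bndAx q}

end Pool.Agent.RT
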